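import Mathlib
import Pool.Graph.R_seed8.Helper772.MV.LP

/-!
# Parseval on circles, power series with nonnegative coefficients, polar coordinates on annuli
-/

set_option autoImplicit false

open MeasureTheory Metric Set Filter Topology
open scoped ENNReal Real

namespace Pool.Agent.H3.D6

open MeanVal

/-- point of the circle of radius `s` -/
noncomputable def cp (s θ : ℝ) : ℂ := (s : ℂ) * Complex.exp (θ * Complex.I)

theorem norm_cp (s θ : ℝ) (hs : 0 ≤ s) : ‖cp s θ‖ = s := by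
  rw [cp, norm_mul, Complex.norm_exp_ofReal_mul_I, mul_one, Complex.norm_real,
    Real.norm_of_nonneg hs]

theorem continuous_cp : Continuous (fun q : ℝ × ℝ => cp q.1 q.2) := by
  unfold cp; fun_prop

theorem parseval (h : ℂ → ℂ) (hh : DifferentiableOn ℂ h (ball 0 1)) (s : ℝ) (hs : 0 ≤ s)
    (hs1 : s < 1) :
    Continuous (fun θ : ℝ => h (cp s θ)) ∧
    HasSum (fun n => 2 * π * (‖coeff h n‖ ^ 2 * s ^ (2 * n)))
      (∫ θ in (-π)..π, ‖h (cp s θ)‖ ^ 2) := by
  have hF : ∀ θ : ℝ, HasSum (fun n : ℕ => (coeff h n * (s : ℂ) ^ n) *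
      Complex.exp ((n : ℤ) * θ * Complex.I)) (h (cp s θ)) := by
    intro θ
    have h1 : cp s θ ∈ ball (0 : ℂ) 1 := by
      rw [mem_ball_zero_iff, norm_cp _ _ hs]
      exact hs1
    have h2 := Complex.hasSum_taylorSeries_on_ball hh h1
    refine h2.congr_fun ?_
    intro n
    rw [sub_zero, cp, mul_pow, ← Complex.exp_nat_mul, coeff, smul_eq_mul, smul_eq_mul]
    have h3 : ((n : ℤ) : ℂ) * θ * Complex.I = n * (θ * Complex.I) := by
      push_cast
      ring
    rw [h3]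
    field_simp
  have ha : Summable fun n => ‖coeff h n * (s : ℂ) ^ n‖ := by
    have h1 := (hF 0).summable.norm
    refine h1.congr ?_
    intro n
    exact LP.bnd_10059 _ _ _
  obtain ⟨hc, hsum⟩ := LP.pars_10059 _ ha _ hF
  refine ⟨hc, hsum.congr_fun ?_⟩
  intro n
  rw [norm_mul, norm_pow, Complex.norm_real, Real.norm_of_nonneg hs, mul_pow, ← pow_mul,
    mul_comm n 2]

/-- `U c j s = ∑ k^j c_k s^(2k)` -/
noncomputable def U (c : ℕ → ℝ) (j : ℕ) (s : ℝ) : ℝ := ∑' k : ℕ, (k : ℝ) ^ j * c k * s ^ (2 * k)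

/-- summability for all radii below one -/
def SumOK (c : ℕ → ℝ) : Prop :=
  (∀ k, 0 ≤ c k) ∧ ∀ s : ℝ, 0 ≤ s → s < 1 → Summable (fun k : ℕ => c k * s ^ (2 * k))

theorem summable_U {c : ℕ → ℝ} (hc : SumOK c) (j : ℕ) {s : ℝ} (hs : 0 ≤ s) (hs1 : s < 1) :
    Summable (fun k : ℕ => (k : ℝ) ^ j * c k * s ^ (2 * k)) := by
  set t : ℝ := (1 + s) / 2 with ht
  have hst : s < t := by rw [ht]; linarith
  have ht1 : t < 1 := by rw [ht]; linarith
  have ht0 : 0 < t := by rw [ht]; linarith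
  set r : ℝ := (s / t) ^ 2 with hr
  have hst' : s / t < 1 := by rw [div_lt_one ht0]; exact hst
  have hst0 : 0 ≤ s / t := by positivity
  have hr0 : 0 ≤ r := by positivity
  have hr1 : |r| < 1 := by
    rw [abs_of_nonneg hr0, hr]
    exact pow_lt_one₀ hst0 hst' two_ne_zero
  have h1 := tendsto_pow_const_mul_const_pow_of_abs_lt_one j hr1
  obtain ⟨M, hM⟩ := h1.bddAbove_range
  have hM' : ∀ k : ℕ, (k : ℝ) ^ j * r ^ k ≤ M := fun k => hM ⟨k, rfl⟩
  refine Summable.of_nonneg_of_le (fun k => ?_) (fun k => ?_) ((hc.2 t ht0.le ht1).mul_left M)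
  · have := hc.1 k
    positivity
  · have h2 : s ^ (2 * k) = r ^ k * t ^ (2 * k) := by
      rw [hr, ← pow_mul, div_pow, div_mul_cancel₀]
      positivity
    rw [h2]
    have h3 := hc.1 k
    calc (k : ℝ) ^ j * c k * (r ^ k * t ^ (2 * k)) = ((k : ℝ) ^ j * r ^ k) * (c k * t ^ (2 * k)) := by
          ring
      _ ≤ M * (c k * t ^ (2 * k)) := mul_le_mul_of_nonneg_right (hM' k) (by positivity)

theorem U_nonneg {c : ℕ → ℝ} (hc : SumOK c) (j : ℕ) {s : ℝ} : 0 ≤ U c j s := by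
  apply tsum_nonneg
  intro k
  have := hc.1 k
  have h2 : 0 ≤ s ^ (2 * k) := by rw [pow_mul]; positivity
  positivity

theorem hasDerivAt_U {c : ℕ → ℝ} (hc : SumOK c) (j : ℕ) {s : ℝ} (hs : 0 < s) (hs1 : s < 1) :
    HasDerivAt (U c j) (2 / s * U c (j + 1) s) s := by
  set r : ℝ := (1 + s) / 2 with hr
  have hsr : s < r := by rw [hr]; linarith
  have hr1 : r < 1 := by rw [hr]; linarith
  have hr0 : 0 < r := by rw [hr]; linarith
  have hsum := (summable_U hc (j + 1) hr0.le hr1).mul_left (2 / r)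
  have key := hasDerivAt_tsum_of_isPreconnected (𝕜 := ℝ) (F := ℝ)
    (g := fun (k : ℕ) (y : ℝ) => (k : ℝ) ^ j * c k * y ^ (2 * k))
    (g' := fun (k : ℕ) (y : ℝ) => (k : ℝ) ^ j * c k * (((2 * k : ℕ) : ℝ) * y ^ (2 * k - 1)))
    (u := fun (k : ℕ) => 2 / r * ((k : ℝ) ^ (j + 1) * c k * r ^ (2 * k)))
    (t := Ioo 0 r) (y₀ := s) (y := s) hsum isOpen_Ioo (isPreconnected_Ioo)
    (fun k y hy => (hasDerivAt_pow (2 * k) y).const_mul _)
    (fun k y hy => by
      have hck := hc.1 k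
      rcases Nat.eq_zero_or_pos k with hk | hk
      · subst hk; simp
      rw [Real.norm_of_nonneg (by have := hy.1; positivity)]
      have h1 : y ^ (2 * k - 1) ≤ r ^ (2 * k - 1) := pow_le_pow_left₀ hy.1.le hy.2.le _
      have h2 : r ^ (2 * k) = r ^ (2 * k - 1) * r := by
        rw [← pow_succ]; congr 1; omega
      calc (k : ℝ) ^ j * c k * (((2 * k : ℕ) : ℝ) * y ^ (2 * k - 1))
          ≤ (k : ℝ) ^ j * c k * (((2 * k : ℕ) : ℝ) * r ^ (2 * k - 1)) := by gcongr
        _ = 2 / r * ((k : ℝ) ^ (j + 1) * c k * r ^ (2 * k)) := by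
            rw [h2]; push_cast; field_simp; ring)
    ⟨hs, hsr⟩ (summable_U hc j hs.le hs1) ⟨hs, hsr⟩
  have e : ∑' k : ℕ, (k : ℝ) ^ j * c k * (((2 * k : ℕ) : ℝ) * s ^ (2 * k - 1)) =
      2 / s * U c (j + 1) s := by
    rw [U, ← tsum_mul_left]
    apply tsum_congr
    intro k
    rcases Nat.eq_zero_or_pos k with hk | hk
    · subst hk; simp
    have h2 : s ^ (2 * k) = s ^ (2 * k - 1) * s := by
      rw [← pow_succ]; congr 1; omega
    rw [h2]; push_cast; field_simp; ring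
  rw [e] at key
  exact key

/-- coefficients of a univalent function: the sequence of squares is summable -/
theorem sumOK_coeff (h : ℂ → ℂ) (hh : DifferentiableOn ℂ h (ball 0 1)) :
    SumOK (fun n => ‖coeff h n‖ ^ 2) := by
  refine ⟨fun n => by positivity, fun s hs hs1 => ?_⟩
  have h1 := (parseval h hh s hs hs1).2.summable
  have h2 := h1.mul_left ((2 * π)⁻¹)
  refine h2.congr fun n => ?_
  have : (2 * π) ≠ 0 := by positivity
  field_simp

theorem U_zero_eq (h : ℂ → ℂ) (hh : DifferentiableOn ℂ h (ball 0 1)) (s : ℝ) (hs : 0 ≤ s)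
    (hs1 : s < 1) :
    ∫ θ in (-π)..π, ‖h (cp s θ)‖ ^ 2 = 2 * π * U (fun n => ‖coeff h n‖ ^ 2) 0 s := by
  rw [← (parseval h hh s hs hs1).2.tsum_eq, U, ← tsum_mul_left]
  apply tsum_congr
  intro n
  simp

/-- coefficients of `z h'(z) - μ h(z)` -/
theorem coeff_euler (h : ℂ → ℂ) (hh : DifferentiableOn ℂ h (ball 0 1)) (μ : ℂ) (n : ℕ) :
    coeff (fun z => z * deriv h z - μ * h z) n = ((n : ℂ) - μ) * coeff h n := by
  have hnb : ball (0 : ℂ) 1 ∈ 𝓝 (0 : ℂ) := isOpen_ball.mem_nhds (mem_ball_self one_pos)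
  have han : AnalyticAt ℂ h 0 := hh.analyticAt hnb
  have hdan : AnalyticAt ℂ (deriv h) 0 := han.deriv
  have key : ∀ (u : ℂ → ℂ), AnalyticAt ℂ u 0 → ∀ k : ℕ,
      iteratedDeriv (k + 1) (fun z => z * u z) 0 = (k + 1) * iteratedDeriv k u 0 := by
    intro u hu k
    have h1 := iteratedDeriv_fun_mul (n := k + 1) (x := (0:ℂ)) (f := fun z : ℂ => z) (g := u)
      (contDiff_id.contDiffAt) (hu.contDiffAt)
    rw [h1, Finset.sum_range_succ', Finset.sum_range_succ']
    have h2 : ∀ i ∈ Finset.range k, ((k + 1).choose (i + 1 + 1) : ℂ) *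
        iteratedDeriv (i + 1 + 1) (fun z : ℂ => z) 0 * iteratedDeriv (k + 1 - (i + 1 + 1)) u 0 = 0 := by
      intro i _
      have h3 : iteratedDeriv (i + 1 + 1) (fun z : ℂ => z) 0 = 0 := by
        rw [iteratedDeriv_succ', show deriv (fun z : ℂ => z) = fun _ => (1:ℂ) from by
          funext z; simp]
        rw [iteratedDeriv_const]
        simp
      rw [h3]; ring
    rw [Finset.sum_eq_zero h2]
    simp
  have hlin : coeff (fun z => z * deriv h z - μ * h z) n =
      coeff (fun z => z * deriv h z) n - μ * coeff h n := by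
    unfold coeff
    have h1 : iteratedDeriv n (fun z => z * deriv h z - μ * h z) 0 =
        iteratedDeriv n (fun z => z * deriv h z) 0 - μ * iteratedDeriv n h 0 := by
      have e1 : ContDiffAt ℂ n (fun z => z * deriv h z) 0 :=
        (analyticAt_id.mul hdan).contDiffAt
      have e2 : ContDiffAt ℂ n (fun z => μ * h z) 0 := (analyticAt_const.mul han).contDiffAt
      rw [iteratedDeriv_fun_sub e1 e2]
      congr 1
      exact iteratedDeriv_const_mul_field μ h
    rw [h1, sub_div, mul_div_assoc]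
  rw [hlin]
  have h2 : coeff (fun z => z * deriv h z) n = (n : ℂ) * coeff h n := by
    rcases n with _ | k
    · simp [coeff]
    · unfold coeff
      rw [key _ hdan k, ← iteratedDeriv_succ']
      push_cast
      ring
  rw [h2]; ring

/-- Parseval for `z h' - μ h`. -/
theorem euler_parseval (h : ℂ → ℂ) (hh : DifferentiableOn ℂ h (ball 0 1)) (μ s : ℝ) (hs : 0 ≤ s)
    (hs1 : s < 1) :
    ∫ θ in (-π)..π, ‖cp s θ * deriv h (cp s θ) - (μ : ℂ) * h (cp s θ)‖ ^ 2 =
      2 * π * (U (fun n => ‖coeff h n‖ ^ 2) 2 s - 2 * μ * U (fun n => ‖coeff h n‖ ^ 2) 1 s +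
        μ ^ 2 * U (fun n => ‖coeff h n‖ ^ 2) 0 s) := by
  have hd : DifferentiableOn ℂ (fun z => z * deriv h z - (μ : ℂ) * h z) (ball 0 1) := by
    have h1 : DifferentiableOn ℂ (deriv h) (ball 0 1) := hh.deriv isOpen_ball
    exact (differentiableOn_id.mul h1).sub (hh.const_mul _)
  have h1 := (parseval _ hd s hs hs1).2
  have hc := sumOK_coeff h hh
  have h2 := (summable_U hc 2 hs hs1).hasSum
  have h3 := (summable_U hc 1 hs hs1).hasSum
  have h4 := (summable_U hc 0 hs hs1).hasSum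
  have h5 := ((h2.sub (h3.mul_left (2 * μ))).add (h4.mul_left (μ ^ 2))).mul_left (2 * π)
  refine h1.unique (h5.congr_fun ?_)
  intro n
  rw [coeff_euler h hh, norm_mul]
  have h6 : ‖(n : ℂ) - (μ : ℂ)‖ ^ 2 = ((n : ℝ) - μ) ^ 2 := by
    have : (n : ℂ) - (μ : ℂ) = (((n : ℝ) - μ : ℝ) : ℂ) := by push_cast; ring
    rw [this, Complex.norm_real, Real.norm_eq_abs, sq_abs]
  rw [mul_pow, h6]
  ring

end Pool.Agent.H3.D6
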