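import Mathlib
import Pool.Agent.H3.D6.PS

/-!
# Polar coordinates on annuli
-/

set_option autoImplicit false

open MeasureTheory Metric Set Filter Topology
open scoped ENNReal Real

namespace Pool.Agent.H3.D6

open MeanVal

theorem continuousOn_circ (h : ℂ → ℝ) (a b : ℝ) (ha : 0 ≤ a) (hab : a ≤ b)
    (hh : ContinuousOn h {z : ℂ | a ≤ ‖z‖ ∧ ‖z‖ ≤ b}) :
    ContinuousOn (fun s => ∫ θ in (-π)..π, h (cp s θ)) (Icc a b) := by
  set cl : ℝ → ℝ := fun s => max a (min s b) with hcl
  have hclc : Continuous cl := by rw [hcl]; fun_prop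
  have hcl1 : ∀ s, a ≤ cl s := fun s => le_max_left _ _
  have hcl2 : ∀ s, cl s ≤ b := fun s => max_le hab (min_le_right _ _)
  have hcont : Continuous (Function.uncurry fun (s θ : ℝ) => h (cp (cl s) θ)) := by
    have h1 : Continuous (fun q : ℝ × ℝ => cp (cl q.1) q.2) :=
      continuous_cp.comp ((hclc.comp continuous_fst).prodMk continuous_snd)
    refine hh.comp_continuous h1 ?_
    intro q
    simp only [mem_ofPred_eq]
    rw [norm_cp _ _ (ha.trans (hcl1 _))]
    exact ⟨hcl1 _, hcl2 _⟩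
  have h2 : Continuous (fun s => ∫ θ in (-π)..π, h (cp (cl s) θ)) :=
    intervalIntegral.continuous_parametric_intervalIntegral_of_continuous' hcont _ _
  refine h2.continuousOn.congr ?_
  intro s hs
  have h3 : cl s = s := by
    rw [hcl]
    simp only
    rw [min_eq_left hs.2, max_eq_right hs.1]
  simp only [h3]

theorem polar_annulus (h : ℂ → ℝ) (a b : ℝ) (ha : 0 < a) (hab : a ≤ b)
    (hh : ContinuousOn h {z : ℂ | a ≤ ‖z‖ ∧ ‖z‖ ≤ b})
    (h0 : ∀ z : ℂ, a ≤ ‖z‖ → ‖z‖ ≤ b → 0 ≤ h z) :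
    ∫⁻ z in {z : ℂ | a < ‖z‖ ∧ ‖z‖ < b}, ENNReal.ofReal (h z) =
      ENNReal.ofReal (∫ s in a..b, s * ∫ θ in (-π)..π, h (cp s θ)) := by
  set A : Set ℂ := {z : ℂ | a < ‖z‖ ∧ ‖z‖ < b} with hA
  have hAm : MeasurableSet A := by
    apply MeasurableSet.inter
    · exact measurableSet_lt measurable_const measurable_norm
    · exact measurableSet_lt measurable_norm measurable_const
  have hpi : -π ≤ π := by linarith [Real.pi_pos]
  have hcircle : ∀ s ∈ Icc a b, Continuous (fun θ : ℝ => h (cp s θ)) := by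
    intro s hs
    have h1 : Continuous (fun θ : ℝ => cp s θ) := continuous_cp.comp (by fun_prop : Continuous fun θ : ℝ => (s, θ))
    refine hh.comp_continuous h1 ?_
    intro θ
    simp only [mem_ofPred_eq]
    rw [norm_cp _ _ (ha.le.trans hs.1)]
    exact hs
  have hint : IntegrableOn (fun s => s * ∫ θ in (-π)..π, h (cp s θ)) (Icc a b) :=
    (continuousOn_id.mul (continuousOn_circ h a b ha.le hab hh)).integrableOn_Icc
  -- right side
  have hR : ENNReal.ofReal (∫ s in a..b, s * ∫ θ in (-π)..π, h (cp s θ)) =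
      ∫⁻ s in Ioo a b, ∫⁻ θ in Ioo (-π) π, ENNReal.ofReal s * ENNReal.ofReal (h (cp s θ)) := by
    rw [intervalIntegral.integral_of_le hab, integral_Ioc_eq_integral_Ioo,
      ofReal_integral_eq_lintegral_ofReal (hint.mono_set Ioo_subset_Icc_self)]
    · refine setLIntegral_congr_fun measurableSet_Ioo ?_
      intro s hs
      have hs0 : 0 ≤ s := ha.le.trans hs.1.le
      have hs' : s ∈ Icc a b := ⟨hs.1.le, hs.2.le⟩
      simp only
      rw [ENNReal.ofReal_mul hs0, intervalIntegral.integral_of_le hpi, integral_Ioc_eq_integral_Ioo,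
        ofReal_integral_eq_lintegral_ofReal
          (((hcircle s hs').integrableOn_Icc).mono_set Ioo_subset_Icc_self),
        lintegral_const_mul' _ _ ENNReal.ofReal_ne_top]
      refine Eventually.of_forall fun θ => ?_
      exact h0 _ (by rw [norm_cp _ _ hs0]; exact hs.1.le) (by rw [norm_cp _ _ hs0]; exact hs.2.le)
    · refine (ae_restrict_iff' measurableSet_Ioo).2 (Eventually.of_forall fun s hs => ?_)
      have hs0 : 0 ≤ s := ha.le.trans hs.1.le
      refine mul_nonneg hs0 ?_
      apply intervalIntegral.integral_nonneg hpi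
      intro θ _
      exact h0 _ (by rw [norm_cp _ _ hs0]; exact hs.1.le) (by rw [norm_cp _ _ hs0]; exact hs.2.le)
  rw [hR, ← lintegral_indicator hAm, ← Complex.lintegral_comp_polarCoord_symm]
  have h1 : ∀ p : ℝ × ℝ, Complex.polarCoord.symm p = cp p.1 p.2 := by
    intro p
    rw [Complex.polarCoord_symm_apply, cp, Complex.exp_mul_I, Complex.ofReal_cos,
      Complex.ofReal_sin]
  have h2 : ∫⁻ p in polarCoord.target, ENNReal.ofReal p.1 •
      A.indicator (fun z => ENNReal.ofReal (h z)) (Complex.polarCoord.symm p) =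
      ∫⁻ p in Ioi (0 : ℝ) ×ˢ Ioo (-π) π, (Ioo a b ×ˢ univ).indicator
        (fun p : ℝ × ℝ => ENNReal.ofReal p.1 * ENNReal.ofReal (h (cp p.1 p.2))) p := by
    refine setLIntegral_congr_fun (measurableSet_Ioi.prod measurableSet_Ioo) ?_
    rintro ⟨s, θ⟩ hp
    have hs : 0 < s := hp.1
    show ENNReal.ofReal s • A.indicator (fun z => ENNReal.ofReal (h z))
      (Complex.polarCoord.symm (s, θ)) = _
    rw [h1 (s, θ)]
    simp only
    by_cases hsr : s ∈ Ioo a b
    · rw [indicator_of_mem (by rw [hA, mem_ofPred_eq, norm_cp _ _ hs.le]; exact hsr),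
        indicator_of_mem (by exact ⟨hsr, mem_univ _⟩), smul_eq_mul]
    · rw [indicator_of_notMem (by rw [hA, mem_ofPred_eq, norm_cp _ _ hs.le]; exact hsr),
        indicator_of_notMem (by exact fun h => hsr h.1), smul_zero]
  have hinter : Ioo a b ∩ Ioi 0 = Ioo a b := by
    apply inter_eq_left.2
    intro r hr
    exact ha.trans hr.1
  rw [h2, lintegral_indicator (measurableSet_Ioo.prod MeasurableSet.univ),
    Measure.restrict_restrict (measurableSet_Ioo.prod MeasurableSet.univ), Set.prod_inter_prod,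
    univ_inter, hinter, Measure.volume_eq_prod, ← Measure.prod_restrict,
    lintegral_prod]
  rw [Measure.prod_restrict]
  have hc : ContinuousOn (fun p : ℝ × ℝ => h (cp p.1 p.2)) (Ioo a b ×ˢ Ioo (-π) π) := by
    refine hh.comp continuous_cp.continuousOn ?_
    rintro ⟨s, θ⟩ hp
    simp only [mem_ofPred_eq]
    rw [norm_cp _ _ (ha.le.trans hp.1.1.le)]
    exact ⟨hp.1.1.le, hp.1.2.le⟩
  have hm : AEMeasurable (fun p : ℝ × ℝ => h (cp p.1 p.2))
      ((volume.prod volume).restrict (Ioo a b ×ˢ Ioo (-π) π)) :=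
    hc.aemeasurable (measurableSet_Ioo.prod measurableSet_Ioo)
  exact (by fun_prop : Measurable fun p : ℝ × ℝ => ENNReal.ofReal p.1).aemeasurable.mul
    hm.ennreal_ofReal

end Pool.Agent.H3.D6
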