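import Mathlib
import Pool.Agent.H3.D6.Polar

/-!
# A differential inequality for the square means of `G`, `z G'/G = A + T`
-/

set_option autoImplicit false

open MeasureTheory Metric Set Filter Topology
open scoped ENNReal Real

namespace Pool.Agent.H3.D6

open MeanVal

/-- squares of the moduli of the coefficients -/
noncomputable def csq (G : ℂ → ℂ) (n : ℕ) : ℝ := ‖coeff G n‖ ^ 2

theorem young_sq (ε a b : ℝ) (hε : 0 < ε) :
    (a + b) ^ 2 ≤ (1 + ε) * a ^ 2 + (1 + 1 / ε) * b ^ 2 := by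
  have h1 : 0 ≤ (ε * a - b) ^ 2 / ε := by positivity
  have h2 : (ε * a - b) ^ 2 / ε = ε * a ^ 2 - 2 * a * b + 1 / ε * b ^ 2 := by
    field_simp; ring
  nlinarith

theorem integral_step (p ε r₀ : ℝ) (hε : 0 < ε) (hr₀ : 0 < r₀) (hp : 0 < p)
    (G T A : ℂ → ℂ) (hG : DifferentiableOn ℂ G (ball 0 1)) (hT : ContinuousOn T (ball 0 1))
    (hEuler : ∀ z : ℂ, ‖z‖ < 1 → z * deriv G z = (A z + T z) * G z)
    (hA : ∀ z : ℂ, r₀ ≤ ‖z‖ → ‖z‖ < 1 →
      ‖A z - ((p * ‖z‖ ^ 2 / (1 - ‖z‖ ^ 2) : ℝ) : ℂ)‖ ≤ 2 * p * ‖z‖ / (1 - ‖z‖ ^ 2))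
    (s : ℝ) (hs : r₀ ≤ s) (hs1 : s < 1) :
    U (csq G) 2 s - 2 * (p * s ^ 2 / (1 - s ^ 2)) * U (csq G) 1 s +
      (p * s ^ 2 / (1 - s ^ 2)) ^ 2 * U (csq G) 0 s ≤
    (1 + ε) * (2 * p * s / (1 - s ^ 2)) ^ 2 * U (csq G) 0 s +
      (1 + 1 / ε) * (1 / (2 * π) * ∫ θ in (-π)..π, ‖T (cp s θ)‖ ^ 2 * ‖G (cp s θ)‖ ^ 2) := by
  have hs0 : 0 < s := hr₀.trans_le hs
  have hpi := Real.pi_pos
  have hx : 0 < 1 - s ^ 2 := by nlinarith
  set μ : ℝ := p * s ^ 2 / (1 - s ^ 2) with hμ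
  have h1 := euler_parseval G hG μ s hs0.le hs1
  have h2 := U_zero_eq G hG s hs0.le hs1
  have hcG : Continuous (fun θ : ℝ => G (cp s θ)) := (parseval G hG s hs0.le hs1).1
  have hcp : Continuous (fun θ : ℝ => cp s θ) :=
    continuous_cp.comp (by fun_prop : Continuous fun θ : ℝ => (s, θ))
  have hmem : ∀ θ : ℝ, cp s θ ∈ ball (0:ℂ) 1 := by
    intro θ
    rw [mem_ball_zero_iff, norm_cp _ _ hs0.le]; exact hs1
  have hcT : Continuous (fun θ : ℝ => T (cp s θ)) := hT.comp_continuous hcp hmem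
  have hcG' : Continuous (fun θ : ℝ => deriv G (cp s θ)) :=
    (hG.deriv isOpen_ball).continuousOn.comp_continuous hcp hmem
  have h3 : ∫ θ in (-π)..π, ‖cp s θ * deriv G (cp s θ) - (μ : ℂ) * G (cp s θ)‖ ^ 2 ≤
      ∫ θ in (-π)..π, ((1 + ε) * (2 * p * s / (1 - s ^ 2)) ^ 2 * ‖G (cp s θ)‖ ^ 2 +
        (1 + 1 / ε) * (‖T (cp s θ)‖ ^ 2 * ‖G (cp s θ)‖ ^ 2)) := by
    apply intervalIntegral.integral_mono_on (by linarith)
    · exact (((hcp.mul hcG').sub (continuous_const.mul hcG)).norm.pow 2).intervalIntegrable _ _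
    · exact ((continuous_const.mul (hcG.norm.pow 2)).add
        (continuous_const.mul ((hcT.norm.pow 2).mul (hcG.norm.pow 2)))).intervalIntegrable _ _
    · intro θ _
      have hn := norm_cp s θ hs0.le
      have e1 := hEuler (cp s θ) (by rw [hn]; exact hs1)
      have e2 := hA (cp s θ) (by rw [hn]; exact hs) (by rw [hn]; exact hs1)
      rw [hn] at e2
      have e3 : cp s θ * deriv G (cp s θ) - (μ : ℂ) * G (cp s θ) =
          ((A (cp s θ) - (μ : ℂ)) + T (cp s θ)) * G (cp s θ) := by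
        rw [e1]; ring
      rw [e3, norm_mul, mul_pow]
      have e4 : ‖(A (cp s θ) - (μ : ℂ)) + T (cp s θ)‖ ^ 2 ≤
          (1 + ε) * (2 * p * s / (1 - s ^ 2)) ^ 2 + (1 + 1 / ε) * ‖T (cp s θ)‖ ^ 2 := by
        have e5 : ‖(A (cp s θ) - (μ : ℂ)) + T (cp s θ)‖ ≤
            2 * p * s / (1 - s ^ 2) + ‖T (cp s θ)‖ := (norm_add_le _ _).trans (by linarith)
        calc ‖(A (cp s θ) - (μ : ℂ)) + T (cp s θ)‖ ^ 2 ≤
            (2 * p * s / (1 - s ^ 2) + ‖T (cp s θ)‖) ^ 2 :=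
              pow_le_pow_left₀ (norm_nonneg _) e5 2
          _ ≤ _ := young_sq _ _ _ hε
      calc ‖(A (cp s θ) - (μ : ℂ)) + T (cp s θ)‖ ^ 2 * ‖G (cp s θ)‖ ^ 2
          ≤ ((1 + ε) * (2 * p * s / (1 - s ^ 2)) ^ 2 + (1 + 1 / ε) * ‖T (cp s θ)‖ ^ 2) *
            ‖G (cp s θ)‖ ^ 2 := mul_le_mul_of_nonneg_right e4 (by positivity)
        _ = _ := by ring
  rw [h1] at h3
  rw [intervalIntegral.integral_add, intervalIntegral.integral_const_mul,
    intervalIntegral.integral_const_mul, h2] at h3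
  · have h4 : ∀ x y : ℝ, 2 * π * x ≤ y → x ≤ 1 / (2 * π) * y := by
      intro x y hxy
      rw [one_div, ← div_eq_inv_mul, le_div_iff₀ (by positivity)]
      linarith
    have h5 := h4 _ _ h3
    refine h5.trans (le_of_eq ?_)
    unfold csq
    field_simp
  · exact (continuous_const.mul (hcG.norm.pow 2)).intervalIntegrable _ _
  · exact (continuous_const.mul ((hcT.norm.pow 2).mul (hcG.norm.pow 2))).intervalIntegrable _ _

/-- the weighted quantity which is controlled -/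
noncomputable def Kf (γ : ℝ) (c : ℕ → ℝ) (s : ℝ) : ℝ :=
  (1 - s ^ 2) / s ^ 2 * U c 1 s + γ * U c 0 s

theorem hasDerivAt_Kf (γ : ℝ) {c : ℕ → ℝ} (hc : SumOK c) {s : ℝ} (hs : 0 < s) (hs1 : s < 1) :
    HasDerivAt (Kf γ c) (-2 / s ^ 3 * U c 1 s + (1 - s ^ 2) / s ^ 2 * (2 / s * U c 2 s) +
      γ * (2 / s * U c 1 s)) s := by
  have h1 : HasDerivAt (fun s : ℝ => (1 - s ^ 2) / s ^ 2) (-2 / s ^ 3) s := by
    have e1 : HasDerivAt (fun s : ℝ => 1 - s ^ 2) (-(2 * s)) s := by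
      have := (hasDerivAt_pow 2 s).const_sub 1
      simpa using this
    have e2 : HasDerivAt (fun s : ℝ => s ^ 2) (2 * s) s := by
      have := hasDerivAt_pow 2 s
      simpa using this
    have e3 := e1.div e2 (by positivity)
    have e4 : -2 / s ^ 3 = (-(2 * s) * s ^ 2 - (1 - s ^ 2) * (2 * s)) / (s ^ 2) ^ 2 := by
      field_simp
      ring
    rw [e4]
    exact e3
  exact (h1.mul (hasDerivAt_U hc 1 hs hs1)).add ((hasDerivAt_U hc 0 hs hs1).const_mul γ)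

/-- algebra: the Riccati step -/
theorem riccati (p β γ ε : ℝ) (hγ : γ = 1 - 2 * p + β) (s U0 U1 U2 q r₀ : ℝ) (hs : r₀ ≤ s)
    (hr₀ : 0 < r₀)
    (hs1 : s < 1) (hU0 : 0 ≤ U0) (hU1 : 0 ≤ U1) (hε : 0 < ε)
    (hcond : p ^ 2 * (4 * (1 + ε) / r₀ ^ 2 - 1) ≤ β * γ)
    (h : U2 - 2 * (p * s ^ 2 / (1 - s ^ 2)) * U1 + (p * s ^ 2 / (1 - s ^ 2)) ^ 2 * U0 ≤
      (1 + ε) * (2 * p * s / (1 - s ^ 2)) ^ 2 * U0 + q) :
    -(2 * s * β) * ((1 - s ^ 2) / s ^ 2 * U1 + γ * U0) + (1 - s ^ 2) *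
      (-2 / s ^ 3 * U1 + (1 - s ^ 2) / s ^ 2 * (2 / s * U2) + γ * (2 / s * U1)) ≤
      2 * s * q * ((1 - s ^ 2) / s ^ 2) ^ 2 := by
  have hs0 : 0 < s := hr₀.trans_le hs
  have hx : 0 < 1 - s ^ 2 := by nlinarith
  set y : ℝ := (1 - s ^ 2) / s ^ 2 with hy
  have hy0 : 0 < y := by positivity
  have hsy : 1 / s ^ 2 = 1 + y := by rw [hy]; field_simp; ring
  have h1 : y ^ 2 * (U2 - 2 * (p * s ^ 2 / (1 - s ^ 2)) * U1 +
      (p * s ^ 2 / (1 - s ^ 2)) ^ 2 * U0) ≤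
      y ^ 2 * ((1 + ε) * (2 * p * s / (1 - s ^ 2)) ^ 2 * U0 + q) :=
    mul_le_mul_of_nonneg_left h (by positivity)
  have e1 : y ^ 2 * (U2 - 2 * (p * s ^ 2 / (1 - s ^ 2)) * U1 +
      (p * s ^ 2 / (1 - s ^ 2)) ^ 2 * U0) = y ^ 2 * U2 - 2 * p * y * U1 + p ^ 2 * U0 := by
    rw [hy]; field_simp
  have e2 : y ^ 2 * ((1 + ε) * (2 * p * s / (1 - s ^ 2)) ^ 2 * U0 + q) =
      (1 + ε) * 4 * p ^ 2 * (1 + y) * U0 + y ^ 2 * q := by
    rw [← hsy, hy]; field_simp; ring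
  rw [e1, e2] at h1
  have e3 : p ^ 2 * (4 * (1 + ε) * (1 + y) - 1) ≤ β * γ := by
    refine le_trans ?_ hcond
    apply mul_le_mul_of_nonneg_left _ (by positivity)
    have e4 : 1 + y ≤ 1 / r₀ ^ 2 := by
      rw [← hsy]
      apply one_div_le_one_div_of_le (by positivity)
      exact pow_le_pow_left₀ hr₀.le hs 2
    have e5 : 4 * (1 + ε) / r₀ ^ 2 = 4 * (1 + ε) * (1 / r₀ ^ 2) := by ring
    rw [e5]
    have := mul_le_mul_of_nonneg_left e4 (by positivity : 0 ≤ 4 * (1 + ε))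
    linarith
  have e6 : -(2 * s * β) * (y * U1 + γ * U0) + (1 - s ^ 2) *
      (-2 / s ^ 3 * U1 + y * (2 / s * U2) + γ * (2 / s * U1)) =
      2 * s * (y * (y * U2 - (1 + y) * U1 + γ * U1) - β * y * U1 - β * γ * U0) := by
    rw [← hsy, hy]; field_simp; ring
  rw [e6]
  have e7 : y * (y * U2 - (1 + y) * U1 + γ * U1) - β * y * U1 - β * γ * U0 ≤ q * y ^ 2 := by
    have e8 := mul_le_mul_of_nonneg_right e3 hU0
    have e9 : 0 ≤ y ^ 2 * U1 := by positivity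
    have e10 : y * (y * U2 - (1 + y) * U1 + γ * U1) - β * y * U1 - β * γ * U0 =
        y ^ 2 * U2 + y * U1 * (γ - 1 - β) - y ^ 2 * U1 - β * γ * U0 := by ring
    rw [e10, hγ] at *
    nlinarith
  calc 2 * s * (y * (y * U2 - (1 + y) * U1 + γ * U1) - β * y * U1 - β * γ * U0)
      ≤ 2 * s * (q * y ^ 2) := mul_le_mul_of_nonneg_left e7 (by positivity)
    _ = _ := by ring

set_option maxHeartbeats 1000000 in
theorem growth (p β γ ε r₀ : ℝ) (hp : 0 < p) (hβ : 0 < β) (hγ : γ = 1 - 2 * p + β)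
    (hε : 0 < ε) (hr₀ : 0 < r₀)
    (hcond : p ^ 2 * (4 * (1 + ε) / r₀ ^ 2 - 1) ≤ β * γ)
    (G T A : ℂ → ℂ) (hG : DifferentiableOn ℂ G (ball 0 1)) (hT : ContinuousOn T (ball 0 1))
    (hEuler : ∀ z : ℂ, ‖z‖ < 1 → z * deriv G z = (A z + T z) * G z)
    (hA : ∀ z : ℂ, r₀ ≤ ‖z‖ → ‖z‖ < 1 →
      ‖A z - ((p * ‖z‖ ^ 2 / (1 - ‖z‖ ^ 2) : ℝ) : ℂ)‖ ≤ 2 * p * ‖z‖ / (1 - ‖z‖ ^ 2))
    (R D : ℝ) (hR : r₀ ≤ R) (hR1 : R < 1)
    (hGD : ∀ z : ℂ, r₀ ≤ ‖z‖ → ‖z‖ ≤ R → (1 - ‖z‖ ^ 2) ^ (1 + β) * ‖G z‖ ^ 2 ≤ D) :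
    (1 - R ^ 2) ^ β * Kf γ (csq G) R ≤ (1 - r₀ ^ 2) ^ β * Kf γ (csq G) r₀ +
      (1 + 1 / ε) / (π * r₀ ^ 4) * D *
        ∫ s in r₀..R, s * ∫ θ in (-π)..π, ‖T (cp s θ)‖ ^ 2 := by
  have hc : SumOK (csq G) := sumOK_coeff G hG
  have hpi := Real.pi_pos
  set Φ : ℝ → ℝ := fun s => (1 - s ^ 2) ^ β * Kf γ (csq G) s with hΦ
  have hder : ∀ s, 0 < s → s < 1 → HasDerivAt Φ
      ((-(2 * s) * β * (1 - s ^ 2) ^ (β - 1)) * Kf γ (csq G) s + (1 - s ^ 2) ^ β *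
      (-2 / s ^ 3 * U (csq G) 1 s + (1 - s ^ 2) / s ^ 2 * (2 / s * U (csq G) 2 s) +
      γ * (2 / s * U (csq G) 1 s))) s := by
    intro s hs hs1
    have hx : 0 < 1 - s ^ 2 := by nlinarith
    have e1 : HasDerivAt (fun s : ℝ => 1 - s ^ 2) (-(2 * s)) s := by
      have := (hasDerivAt_pow 2 s).const_sub 1
      simpa using this
    have e2 := e1.rpow_const (p := β) (Or.inl hx.ne')
    exact e2.mul (hasDerivAt_Kf γ hc hs hs1)
  have hTc : ContinuousOn (fun z => ‖T z‖ ^ 2) {z : ℂ | r₀ ≤ ‖z‖ ∧ ‖z‖ ≤ R} := by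
    refine (hT.norm.pow 2).mono ?_
    intro z hz
    rw [mem_ball_zero_iff]
    exact lt_of_le_of_lt hz.2 hR1
  have hint : ContinuousOn (fun s => (1 + 1 / ε) / (π * r₀ ^ 4) * D *
      (s * ∫ θ in (-π)..π, ‖T (cp s θ)‖ ^ 2)) (Icc r₀ R) :=
    continuousOn_const.mul (continuousOn_id.mul
      (continuousOn_circ (fun z => ‖T z‖ ^ 2) r₀ R hr₀.le hR hTc))
  have hmain := intervalIntegral.sub_le_integral_of_hasDeriv_right_of_le
    (g := Φ) (a := r₀) (b := R)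
    (g' := fun s => (-(2 * s) * β * (1 - s ^ 2) ^ (β - 1)) * Kf γ (csq G) s + (1 - s ^ 2) ^ β *
      (-2 / s ^ 3 * U (csq G) 1 s + (1 - s ^ 2) / s ^ 2 * (2 / s * U (csq G) 2 s) +
      γ * (2 / s * U (csq G) 1 s)))
    (φ := fun s => (1 + 1 / ε) / (π * r₀ ^ 4) * D * (s * ∫ θ in (-π)..π, ‖T (cp s θ)‖ ^ 2))
    hR
    (fun s hs => (hder s (hr₀.trans_le hs.1) (lt_of_le_of_lt hs.2 hR1)).continuousAt.continuousWithinAt)
    (fun s hs => (hder s (hr₀.trans hs.1) (hs.2.trans hR1)).hasDerivWithinAt)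
    hint.integrableOn_Icc
    (by
      intro s hs
      have hs0 : 0 < s := hr₀.trans hs.1
      have hs1 : s < 1 := hs.2.trans hR1
      have hx : 0 < 1 - s ^ 2 := by nlinarith
      have hcp : Continuous (fun θ : ℝ => cp s θ) :=
        continuous_cp.comp (by fun_prop : Continuous fun θ : ℝ => (s, θ))
      have hmem : ∀ θ : ℝ, cp s θ ∈ ball (0:ℂ) 1 := by
        intro θ
        rw [mem_ball_zero_iff, norm_cp _ _ hs0.le]; exact hs1
      have hcT : Continuous (fun θ : ℝ => T (cp s θ)) := hT.comp_continuous hcp hmem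
      have hcG : Continuous (fun θ : ℝ => G (cp s θ)) := hG.continuousOn.comp_continuous hcp hmem
      set I1 : ℝ := ∫ θ in (-π)..π, ‖T (cp s θ)‖ ^ 2 * ‖G (cp s θ)‖ ^ 2 with hI1
      set I2 : ℝ := ∫ θ in (-π)..π, ‖T (cp s θ)‖ ^ 2 with hI2
      have hI2nn : 0 ≤ I2 := intervalIntegral.integral_nonneg (by linarith) fun θ _ => by positivity
      set q : ℝ := (1 + 1 / ε) * (1 / (2 * π) * I1) with hq
      have hstep := integral_step p ε r₀ hε hr₀ hp G T A hG hT hEuler hA s hs.1.le hs1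
      have hric := riccati p β γ ε hγ s (U (csq G) 0 s) (U (csq G) 1 s) (U (csq G) 2 s) q r₀
        hs.1.le hr₀ hs1 (U_nonneg hc 0) (U_nonneg hc 1) hε hcond hstep
      have hxp : (1 - s ^ 2) ^ β = (1 - s ^ 2) ^ (β - 1) * (1 - s ^ 2) := by
        rw [← Real.rpow_add_one hx.ne']; congr 1; ring
      have hxp2 : (1 - s ^ 2) ^ (1 + β) = (1 - s ^ 2) ^ (β - 1) * (1 - s ^ 2) ^ 2 := by
        rw [← Real.rpow_natCast (1 - s ^ 2) 2, ← Real.rpow_add hx]; congr 1; push_cast; ring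
      have hxb : 0 < (1 - s ^ 2) ^ (β - 1) := Real.rpow_pos_of_pos hx _
      have hI12 : (1 - s ^ 2) ^ (1 + β) * I1 ≤ D * I2 := by
        rw [hI1, hI2, ← intervalIntegral.integral_const_mul, ← intervalIntegral.integral_const_mul]
        apply intervalIntegral.integral_mono_on (by linarith)
        · exact (continuous_const.mul ((hcT.norm.pow 2).mul (hcG.norm.pow 2))).intervalIntegrable _ _
        · exact (continuous_const.mul (hcT.norm.pow 2)).intervalIntegrable _ _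
        · intro θ _
          have hn := norm_cp s θ hs0.le
          have e1 := hGD (cp s θ) (by rw [hn]; exact hs.1.le) (by rw [hn]; exact hs.2.le)
          rw [hn] at e1
          have e2 : 0 ≤ ‖T (cp s θ)‖ ^ 2 := by positivity
          nlinarith [mul_le_mul_of_nonneg_right e1 e2]
      calc (-(2 * s) * β * (1 - s ^ 2) ^ (β - 1)) * Kf γ (csq G) s + (1 - s ^ 2) ^ β *
            (-2 / s ^ 3 * U (csq G) 1 s + (1 - s ^ 2) / s ^ 2 * (2 / s * U (csq G) 2 s) +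
            γ * (2 / s * U (csq G) 1 s))
          = (1 - s ^ 2) ^ (β - 1) * (-(2 * s * β) * ((1 - s ^ 2) / s ^ 2 * U (csq G) 1 s +
            γ * U (csq G) 0 s) + (1 - s ^ 2) * (-2 / s ^ 3 * U (csq G) 1 s +
            (1 - s ^ 2) / s ^ 2 * (2 / s * U (csq G) 2 s) + γ * (2 / s * U (csq G) 1 s))) := by
            rw [hxp, Kf]; ring
        _ ≤ (1 - s ^ 2) ^ (β - 1) * (2 * s * q * ((1 - s ^ 2) / s ^ 2) ^ 2) :=
            mul_le_mul_of_nonneg_left hric hxb.le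
        _ = (1 + 1 / ε) / (π * s ^ 3) * ((1 - s ^ 2) ^ (1 + β) * I1) := by
            rw [hxp2, hq]; field_simp
        _ ≤ (1 + 1 / ε) / (π * s ^ 3) * (D * I2) :=
            mul_le_mul_of_nonneg_left hI12 (by positivity)
        _ ≤ (1 + 1 / ε) / (π * r₀ ^ 4) * D * (s * I2) := by
            have hD : 0 ≤ D := by
              have hn := norm_cp s 0 hs0.le
              have e1 := hGD (cp s 0) (by rw [hn]; exact hs.1.le) (by rw [hn]; exact hs.2.le)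
              rw [hn] at e1
              refine le_trans ?_ e1
              positivity
            have e1 : (1 + 1 / ε) / (π * s ^ 3) ≤ (1 + 1 / ε) / (π * r₀ ^ 4) * s := by
              have e2 : (1 + 1 / ε) / (π * s ^ 3) = (1 + 1 / ε) / (π * s ^ 4) * s := by
                field_simp
              rw [e2]
              apply mul_le_mul_of_nonneg_right _ hs0.le
              apply div_le_div_of_nonneg_left (by positivity) (by positivity)
              apply mul_le_mul_of_nonneg_left _ hpi.le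
              exact pow_le_pow_left₀ hr₀.le hs.1.le 4
            calc (1 + 1 / ε) / (π * s ^ 3) * (D * I2) ≤
                ((1 + 1 / ε) / (π * r₀ ^ 4) * s) * (D * I2) :=
                  mul_le_mul_of_nonneg_right e1 (by positivity)
              _ = _ := by ring)
  rw [intervalIntegral.integral_const_mul] at hmain
  simp only [hΦ] at hmain
  linarith

/-- the first moment is controlled by the zeroth moment on a larger circle -/
theorem U_one_le (a b : ℝ) (ha : 0 ≤ a) (hab : a < b) (hb : b < 1) :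
    ∃ C : ℝ, 0 ≤ C ∧ ∀ c : ℕ → ℝ, SumOK c → U c 1 a ≤ C * U c 0 b := by
  have hb0 : 0 < b := by linarith
  set r : ℝ := (a / b) ^ 2 with hr
  have hst' : a / b < 1 := by rw [div_lt_one hb0]; exact hab
  have hst0 : 0 ≤ a / b := by positivity
  have hr0 : 0 ≤ r := by positivity
  have hr1 : |r| < 1 := by
    rw [abs_of_nonneg hr0, hr]
    exact pow_lt_one₀ hst0 hst' two_ne_zero
  have h1 := tendsto_pow_const_mul_const_pow_of_abs_lt_one 1 hr1
  obtain ⟨M, hM⟩ := h1.bddAbove_range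
  have hM' : ∀ k : ℕ, (k : ℝ) ^ 1 * r ^ k ≤ M := fun k => hM ⟨k, rfl⟩
  have hM0 : 0 ≤ M := by simpa using hM' 0
  refine ⟨M, hM0, fun c hc => ?_⟩
  rw [U, U, ← tsum_mul_left]
  apply Summable.tsum_le_tsum _ (summable_U hc 1 ha (hab.trans hb))
    ((summable_U hc 0 hb0.le hb).mul_left M)
  intro k
  have h2 : a ^ (2 * k) = r ^ k * b ^ (2 * k) := by
    rw [hr, ← pow_mul, div_pow, div_mul_cancel₀]
    positivity
  rw [h2]
  have h3 := hc.1 k
  calc (k : ℝ) ^ 1 * c k * (r ^ k * b ^ (2 * k)) = ((k : ℝ) ^ 1 * r ^ k) * (c k * b ^ (2 * k)) := by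
        ring
    _ ≤ M * (c k * b ^ (2 * k)) := mul_le_mul_of_nonneg_right (hM' k) (by positivity)
    _ = _ := by simp

theorem U_zero_mono {c : ℕ → ℝ} (hc : SumOK c) {a b : ℝ} (ha : 0 ≤ a) (hab : a ≤ b) (hb : b < 1) :
    U c 0 a ≤ U c 0 b := by
  apply Summable.tsum_le_tsum _ (summable_U hc 0 ha (lt_of_le_of_lt hab hb))
    (summable_U hc 0 (ha.trans hab) hb)
  intro k
  have h3 := hc.1 k
  gcongr

theorem U_zero_le_sup (G : ℂ → ℂ) (hG : DifferentiableOn ℂ G (ball 0 1)) (b M : ℝ) (hb : 0 ≤ b)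
    (hb1 : b < 1) (hM : ∀ z : ℂ, ‖z‖ = b → ‖G z‖ ^ 2 ≤ M) : U (csq G) 0 b ≤ M := by
  have hpi := Real.pi_pos
  have h1 := U_zero_eq G hG b hb hb1
  have h2 : ∫ θ in (-π)..π, ‖G (cp b θ)‖ ^ 2 ≤ ∫ θ in (-π)..π, M := by
    apply intervalIntegral.integral_mono_on (by linarith)
    · exact ((parseval G hG b hb hb1).1.norm.pow 2).intervalIntegrable _ _
    · exact continuous_const.intervalIntegrable _ _
    · intro θ _
      exact hM _ (norm_cp _ _ hb)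
  rw [h1, intervalIntegral.integral_const] at h2
  have h3 : (π - -π) • M = 2 * π * M := by rw [smul_eq_mul]; ring
  rw [h3] at h2
  exact le_of_mul_le_mul_left h2 (by positivity)

end Pool.Agent.H3.D6
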