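import Mathlib
import Pool.Agent.H3.D6.Growth
import Pool.Graph.R_seed8.Helper240.ZFM.B1

/-!
# Logarithms, omitted values
-/

set_option autoImplicit false

open MeasureTheory Metric Set Filter Topology
open scoped ENNReal Real

namespace Pool.Agent.H3.D6

open MeanVal

theorem exists_log (h : ℂ → ℂ) (hh : DifferentiableOn ℂ h (ball 0 1))
    (h0 : ∀ z ∈ ball (0:ℂ) 1, h z ≠ 0) :
    ∃ L : ℂ → ℂ, (∀ z ∈ ball (0:ℂ) 1, Complex.exp (L z) = h z) ∧
      ∀ z ∈ ball (0:ℂ) 1, HasDerivAt L (deriv h z / h z) z := by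
  have hq : DifferentiableOn ℂ (fun z => deriv h z / h z) (ball 0 1) :=
    (hh.deriv isOpen_ball).div hh h0
  obtain ⟨L, hL0, hL⟩ := hq.isExactOn_ball.with_val_at 0 (Complex.log (h 0))
  refine ⟨L, ?_, hL⟩
  have hb0 : (0:ℂ) ∈ ball (0:ℂ) 1 := mem_ball_self one_pos
  have hF : ∀ z ∈ ball (0:ℂ) 1, HasDerivAt (fun z => Complex.exp (-L z) * h z) 0 z := by
    intro z hz
    have h1 := ((hL z hz).neg.cexp).mul (hh.differentiableAt (isOpen_ball.mem_nhds hz)).hasDerivAt
    have h2 : Complex.exp (-L z) * -(deriv h z / h z) * h z + Complex.exp (-L z) * deriv h z = 0 := by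
      field_simp [h0 z hz]
      ring
    have h3 := h1.congr_deriv h2
    exact h3
  intro z hz
  have h1 := isOpen_ball.is_const_of_deriv_eq_zero (convex_ball (0:ℂ) 1).isPreconnected
    (fun z hz => (hF z hz).differentiableAt.differentiableWithinAt)
    (fun z hz => (hF z hz).deriv) hz hb0
  simp only [hL0, Complex.exp_neg, Complex.exp_log (h0 0 hb0)] at h1
  rw [inv_mul_cancel₀ (h0 0 hb0)] at h1
  have h2 := Complex.exp_ne_zero (L z)
  field_simp at h1
  exact h1.symm

theorem exists_omitted (f : ℂ → ℂ) (hf : DifferentiableOn ℂ f (ball 0 1))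
    (hinj : InjOn f (ball 0 1)) : ∃ w : ℂ, ∀ z ∈ ball (0:ℂ) 1, f z ≠ w := by
  by_contra hcon
  push Not at hcon
  choose g hg hfg using hcon
  have hgf : ∀ z ∈ ball (0:ℂ) 1, g (f z) = z := fun z hz => hinj (hg _) hz (hfg _)
  have hder : ∀ z ∈ ball (0:ℂ) 1, deriv f z ≠ 0 := fun z hz =>
    Pool.Agent.Helper405.Conv.deriv_ne_zero_of_injOn isOpen_ball hf hinj hz
  have hd : Differentiable ℂ g := by
    intro w
    have hz := hg w
    have han : AnalyticAt ℂ f (g w) := hf.analyticAt (isOpen_ball.mem_nhds hz)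
    have hst : HasStrictDerivAt f (deriv f (g w)) (g w) := han.hasStrictDerivAt
    have hmap := hst.map_nhds_eq (hder _ hz)
    have hc : ContinuousAt g w := by
      show Tendsto g (𝓝 w) (𝓝 (g w))
      have h1 : 𝓝 w = map f (𝓝 (g w)) := by rw [hmap, hfg]
      conv_lhs => rw [h1]
      rw [tendsto_map'_iff]
      have h2 : g ∘ f =ᶠ[𝓝 (g w)] id := by
        filter_upwards [isOpen_ball.mem_nhds hz] with z hz' using hgf z hz'
      exact (tendsto_id.congr' h2.symm)
    exact (HasDerivAt.of_local_left_inverse hc hst.hasDerivAt (hder _ hz)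
      (Eventually.of_forall hfg)).differentiableAt
  have hb : Bornology.IsBounded (range g) := by
    refine (isBounded_ball (x := (0:ℂ)) (r := 1)).subset ?_
    rintro _ ⟨w, rfl⟩
    exact hg w
  have h1 := hd.apply_eq_apply_of_bounded hb 0 1
  have h2 := hfg 0
  rw [h1, hfg 1] at h2
  exact one_ne_zero h2

end Pool.Agent.H3.D6
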