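import Mathlib
import Pool.Agent.H3.D6.Base

/-!
# The auxiliary function `G`, `|G|^2 = |a P|^(2-p) |a'/a|^p`
-/

set_option autoImplicit false

open MeasureTheory Metric Set Filter Topology
open scoped ENNReal Real

namespace Pool.Agent.H3.D6

open MeanVal

theorem exists_G (p : ℝ) (hp0 : 0 ≤ p) (hp1 : p ≤ 1) (a : ℂ → ℂ)
    (ha : DifferentiableOn ℂ a (ball 0 1)) (ha0 : ∀ z ∈ ball (0:ℂ) 1, a z ≠ 0)
    (ha' : ∀ z ∈ ball (0:ℂ) 1, deriv a z ≠ 0) (m : ℕ) (ζ : Fin m → ℂ) (hζ : ∀ l, ‖ζ l‖ = 1) :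
    ∃ G T : ℂ → ℂ, DifferentiableOn ℂ G (ball 0 1) ∧ ContinuousOn T (ball 0 1) ∧
      (∀ z : ℂ, ‖z‖ < 1 → z * deriv G z =
        (((p / 2 : ℝ) : ℂ) * (z * (deriv (deriv a) z / deriv a z)) + T z) * G z) ∧
      (∀ z : ℂ, ‖z‖ < 1 → ‖G z‖ ^ 2 =
        ‖a z‖ ^ (2 - 2 * p) * (∏ l, ‖z - ζ l‖) ^ (2 - p) * ‖deriv a z‖ ^ p) ∧
      (∀ z : ℂ, ‖z‖ < 1 → ‖T z‖ ^ 2 ≤
        2 * ((m : ℝ) + 1) * ((‖deriv a z‖ / ‖a z‖) ^ 2 + ∑ l, 1 / ‖z - ζ l‖ ^ 2)) := by
  have hne : ∀ z ∈ ball (0:ℂ) 1, ∀ l, z - ζ l ≠ 0 := by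
    intro z hz l h
    rw [sub_eq_zero] at h
    rw [mem_ball_zero_iff, h, hζ] at hz
    exact lt_irrefl _ hz
  obtain ⟨La, hLa, hLa'⟩ := exists_log a ha ha0
  obtain ⟨Ld, hLd, hLd'⟩ := exists_log (deriv a) (ha.deriv isOpen_ball) ha'
  have hl : ∀ l : Fin m, ∃ L : ℂ → ℂ, (∀ z ∈ ball (0:ℂ) 1, Complex.exp (L z) = z - ζ l) ∧
      ∀ z ∈ ball (0:ℂ) 1, HasDerivAt L (1 / (z - ζ l)) z := by
    intro l
    obtain ⟨L, h1, h2⟩ := exists_log (fun z => z - ζ l) (by fun_prop) (fun z hz => hne z hz l)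
    refine ⟨L, h1, fun z hz => ?_⟩
    have h3 := h2 z hz
    have h4 : deriv (fun z : ℂ => z - ζ l) z = 1 := by simp
    rw [h4] at h3
    exact h3
  choose Ll hLl hLl' using hl
  set S : ℂ → ℂ := fun z => ((1 - p : ℝ) : ℂ) * (deriv a z / a z) +
    ((1 - p / 2 : ℝ) : ℂ) * ∑ l, 1 / (z - ζ l) with hS
  set E : ℂ → ℂ := fun z => ((1 - p : ℝ) : ℂ) * La z + ((1 - p / 2 : ℝ) : ℂ) * ∑ l, Ll l z +
    ((p / 2 : ℝ) : ℂ) * Ld z with hE
  have hE' : ∀ z ∈ ball (0:ℂ) 1, HasDerivAt E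
      (S z + ((p / 2 : ℝ) : ℂ) * (deriv (deriv a) z / deriv a z)) z := by
    intro z hz
    have h1 : HasDerivAt (fun z => ∑ l, Ll l z) (∑ l, 1 / (z - ζ l)) z :=
      HasDerivAt.fun_sum (u := Finset.univ) (fun l _ => hLl' l z hz)
    exact (((hLa' z hz).const_mul _).add (h1.const_mul _)).add ((hLd' z hz).const_mul _)
  have hG' : ∀ z ∈ ball (0:ℂ) 1, HasDerivAt (fun z => Complex.exp (E z))
      (Complex.exp (E z) * (S z + ((p / 2 : ℝ) : ℂ) * (deriv (deriv a) z / deriv a z))) z :=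
    fun z hz => (hE' z hz).cexp
  refine ⟨fun z => Complex.exp (E z), fun z => z * S z, ?_, ?_, ?_, ?_, ?_⟩
  · exact fun z hz => (hG' z hz).differentiableAt.differentiableWithinAt
  · have h1 : ContinuousOn (fun z => deriv a z / a z) (ball 0 1) :=
      (ha.deriv isOpen_ball).continuousOn.div ha.continuousOn ha0
    have h2 : ContinuousOn (fun z : ℂ => ∑ l, 1 / (z - ζ l)) (ball 0 1) := by
      apply continuousOn_finsetSum
      intro l _
      exact continuousOn_const.div (by fun_prop) (fun z hz => hne z hz l)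
    exact continuousOn_id.mul ((continuousOn_const.mul h1).add (continuousOn_const.mul h2))
  · intro z hz
    have hz' : z ∈ ball (0:ℂ) 1 := mem_ball_zero_iff.2 hz
    rw [(hG' z hz').deriv]
    ring
  · intro z hz
    have hz' : z ∈ ball (0:ℂ) 1 := mem_ball_zero_iff.2 hz
    have e1 : ‖a z‖ = Real.exp (La z).re := by rw [← hLa z hz', Complex.norm_exp]
    have e2 : ‖deriv a z‖ = Real.exp (Ld z).re := by rw [← hLd z hz', Complex.norm_exp]
    have e3 : ∏ l, ‖z - ζ l‖ = Real.exp (∑ l, (Ll l z).re) := by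
      rw [Real.exp_sum]
      refine Finset.prod_congr rfl fun l _ => ?_
      rw [← hLl l z hz', Complex.norm_exp]
    rw [e1, e2, e3, Complex.norm_exp, ← Real.exp_mul, ← Real.exp_mul, ← Real.exp_mul,
      ← Real.exp_add, ← Real.exp_add, ← Real.exp_nat_mul]
    congr 1
    simp only [hE, Complex.add_re, Complex.re_ofReal_mul, Complex.re_sum]
    push_cast
    ring
  · intro z hz
    have hz' : z ∈ ball (0:ℂ) 1 := mem_ball_zero_iff.2 hz
    set x : ℝ := ‖deriv a z‖ / ‖a z‖ with hx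
    have hx0 : 0 ≤ x := by positivity
    set y : Fin m → ℝ := fun l => 1 / ‖z - ζ l‖ with hy
    have hy0 : ∀ l, 0 ≤ y l := fun l => by positivity
    have hyS : 0 ≤ ∑ l, y l := Finset.sum_nonneg fun l _ => hy0 l
    have h1 : ‖z * S z‖ ≤ x + ∑ l, y l := by
      rw [norm_mul]
      have h2 : ‖S z‖ ≤ x + ∑ l, y l := by
        simp only [hS]
        refine (norm_add_le _ _).trans ?_
        rw [norm_mul, norm_mul, Complex.norm_real, Complex.norm_real, norm_div,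
          Real.norm_of_nonneg (by linarith), Real.norm_of_nonneg (by linarith)]
        have h3 : ‖∑ l, 1 / (z - ζ l)‖ ≤ ∑ l, y l := by
          refine (norm_sum_le _ _).trans (le_of_eq ?_)
          refine Finset.sum_congr rfl fun l _ => ?_
          rw [norm_div, norm_one]
        have h4 : (1 - p) * x ≤ x := by nlinarith
        have h5 : (1 - p / 2) * ‖∑ l, 1 / (z - ζ l)‖ ≤ ∑ l, y l := by
          have h6 := norm_nonneg (∑ l, 1 / (z - ζ l))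
          nlinarith
        exact add_le_add h4 h5
      calc ‖z‖ * ‖S z‖ ≤ 1 * (x + ∑ l, y l) :=
            mul_le_mul hz.le h2 (norm_nonneg _) zero_le_one
        _ = _ := one_mul _
    have h7 : (∑ l, y l) ^ 2 ≤ (m : ℝ) * ∑ l, y l ^ 2 := by
      have := sq_sum_le_card_mul_sum_sq (s := (Finset.univ : Finset (Fin m))) (f := y)
      simpa using this
    have h8 : ∑ l, 1 / ‖z - ζ l‖ ^ 2 = ∑ l, y l ^ 2 := by
      refine Finset.sum_congr rfl fun l _ => ?_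
      simp only [hy]
      rw [div_pow, one_pow]
    have h9 : 0 ≤ ∑ l, y l ^ 2 := Finset.sum_nonneg fun l _ => sq_nonneg _
    rw [h8]
    have hm0 : (0:ℝ) ≤ m := Nat.cast_nonneg m
    calc ‖z * S z‖ ^ 2 ≤ (x + ∑ l, y l) ^ 2 := pow_le_pow_left₀ (norm_nonneg _) h1 2
      _ ≤ 2 * x ^ 2 + 2 * (∑ l, y l) ^ 2 := by nlinarith [sq_nonneg (x - ∑ l, y l)]
      _ ≤ 2 * x ^ 2 + 2 * ((m : ℝ) * ∑ l, y l ^ 2) := by linarith
      _ ≤ _ := by nlinarith [mul_nonneg hm0 (sq_nonneg x)]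

/-- sup bound for `G` -/
theorem G_sup (p β w C₁ B x A A' Pi : ℝ) (hp0 : 0 ≤ p) (hp1 : p ≤ 1) (hβ : 0 ≤ β)
    (hw : w * (2 - p) = 1 - p + β) (hx : 0 < x) (hA : 0 < A) (hA' : 0 ≤ A')
    (hPi : 0 ≤ Pi) (hC₁ : 0 ≤ C₁)
    (h1 : A' * x ≤ C₁ * A) (h2 : (A * Pi) * x ^ w ≤ B) (y : ℝ) (hy0 : 0 ≤ y) (hy : y ≤ 2 * x) :
    y ^ (1 + β) * (A ^ (2 - 2 * p) * Pi ^ (2 - p) * A' ^ p) ≤
      2 ^ (1 + β) * C₁ ^ p * B ^ (2 - p) := by
  have e1 : y ^ (1 + β) ≤ 2 ^ (1 + β) * x ^ (1 + β) := by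
    rw [← Real.mul_rpow (by norm_num) hx.le]
    exact Real.rpow_le_rpow hy0 hy (by linarith)
  have e2 : A' ^ p * x ^ p ≤ C₁ ^ p * A ^ p := by
    rw [← Real.mul_rpow hA' hx.le, ← Real.mul_rpow hC₁ hA.le]
    exact Real.rpow_le_rpow (by positivity) h1 hp0
  have e3 : A ^ (2 - p) * Pi ^ (2 - p) * x ^ (w * (2 - p)) ≤ B ^ (2 - p) := by
    rw [← Real.mul_rpow hA.le hPi, Real.rpow_mul hx.le, ← Real.mul_rpow (by positivity)
      (by positivity)]
    exact Real.rpow_le_rpow (by positivity) h2 (by linarith)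
  have e4 : x ^ (1 + β) = x ^ (w * (2 - p)) * x ^ p := by
    rw [← Real.rpow_add hx, hw]; congr 1; ring
  have e5 : A ^ (2 - p) = A ^ (2 - 2 * p) * A ^ p := by
    rw [← Real.rpow_add hA]; congr 1; ring
  have hx1 : 0 < x ^ (w * (2 - p)) := Real.rpow_pos_of_pos hx _
  have hx2 : 0 < x ^ p := Real.rpow_pos_of_pos hx _
  calc y ^ (1 + β) * (A ^ (2 - 2 * p) * Pi ^ (2 - p) * A' ^ p)
      ≤ (2 ^ (1 + β) * x ^ (1 + β)) * (A ^ (2 - 2 * p) * Pi ^ (2 - p) * A' ^ p) :=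
        mul_le_mul_of_nonneg_right e1 (by positivity)
    _ = 2 ^ (1 + β) * (A ^ (2 - 2 * p) * Pi ^ (2 - p) * x ^ (w * (2 - p))) * (A' ^ p * x ^ p) := by
        rw [e4]; ring
    _ ≤ 2 ^ (1 + β) * (A ^ (2 - 2 * p) * Pi ^ (2 - p) * x ^ (w * (2 - p))) * (C₁ ^ p * A ^ p) :=
        mul_le_mul_of_nonneg_left e2 (by positivity)
    _ = 2 ^ (1 + β) * C₁ ^ p * (A ^ (2 - p) * Pi ^ (2 - p) * x ^ (w * (2 - p))) := by
        rw [e5]; ring
    _ ≤ 2 ^ (1 + β) * C₁ ^ p * B ^ (2 - p) := mul_le_mul_of_nonneg_left e3 (by positivity)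

/-- interpolation inequality -/
theorem G_young (p s A A' Pi : ℝ) (hp1 : p ≤ 1) (hs : 0 < s) (hA : 0 < A)
    (hA' : 0 < A') (hPi : 0 < Pi) :
    Pi * A' ≤ s ^ (p - 1) * (A ^ (2 - 2 * p) * Pi ^ (2 - p) * A' ^ p) + s * (A' / A) ^ 2 := by
  set x : ℝ := A * Pi with hx
  set y : ℝ := A' / A with hy
  have hx0 : 0 < x := by positivity
  have hy0 : 0 < y := by positivity
  have e0 : Pi * A' = x * y := by rw [hx, hy]; field_simp
  have e1 : A ^ (2 - 2 * p) * Pi ^ (2 - p) * A' ^ p = x ^ (2 - p) * y ^ p := by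
    rw [hx, hy, Real.mul_rpow hA.le hPi.le, Real.div_rpow hA'.le hA.le]
    have : A ^ (2 - p) = A ^ (2 - 2 * p) * A ^ p := by
      rw [← Real.rpow_add hA]; congr 1; ring
    rw [this]
    have := (Real.rpow_pos_of_pos hA p).ne'
    field_simp
  rw [e0, e1]
  have hpos : 0 < s ^ (p - 1) * (x ^ (2 - p) * y ^ p) := by positivity
  have hpos2 : 0 < s * y ^ 2 := by positivity
  rcases le_or_gt x (s * y) with h | h
  · nlinarith [mul_le_mul_of_nonneg_right h hy0.le]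
  · have e2 : x * y = (x ^ (2 - p) * y ^ p) * (x ^ (p - 1) * y ^ (1 - p)) := by
      have h1 : x ^ (2 - p) * x ^ (p - 1) = x := by
        rw [← Real.rpow_add hx0, show 2 - p + (p - 1) = 1 by ring, Real.rpow_one]
      have h2 : y ^ p * y ^ (1 - p) = y := by
        rw [← Real.rpow_add hy0, show p + (1 - p) = 1 by ring, Real.rpow_one]
      calc x * y = (x ^ (2 - p) * x ^ (p - 1)) * (y ^ p * y ^ (1 - p)) := by rw [h1, h2]
        _ = _ := by ring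
    have e3 : x ^ (p - 1) * y ^ (1 - p) ≤ s ^ (p - 1) := by
      have h1 : y ^ (1 - p) ≤ (x / s) ^ (1 - p) := by
        apply Real.rpow_le_rpow hy0.le _ (by linarith)
        rw [le_div_iff₀ hs]; linarith
      rw [Real.div_rpow hx0.le hs.le] at h1
      have h2 : x ^ (p - 1) * x ^ (1 - p) = 1 := by
        rw [← Real.rpow_add hx0, show p - 1 + (1 - p) = 0 by ring, Real.rpow_zero]
      have h3 : s ^ (p - 1) * s ^ (1 - p) = 1 := by
        rw [← Real.rpow_add hs, show p - 1 + (1 - p) = 0 by ring, Real.rpow_zero]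
      have hxp : 0 < x ^ (p - 1) := Real.rpow_pos_of_pos hx0 _
      have hsp : 0 < s ^ (1 - p) := Real.rpow_pos_of_pos hs _
      calc x ^ (p - 1) * y ^ (1 - p) ≤ x ^ (p - 1) * (x ^ (1 - p) / s ^ (1 - p)) :=
            mul_le_mul_of_nonneg_left h1 hxp.le
        _ = (x ^ (p - 1) * x ^ (1 - p)) / s ^ (1 - p) := by ring
        _ = 1 / s ^ (1 - p) := by rw [h2]
        _ = s ^ (p - 1) := by rw [div_eq_iff hsp.ne', h3]
    have hxy : 0 < x ^ (2 - p) * y ^ p := by positivity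
    calc x * y = (x ^ (2 - p) * y ^ p) * (x ^ (p - 1) * y ^ (1 - p)) := e2
      _ ≤ (x ^ (2 - p) * y ^ p) * s ^ (p - 1) := mul_le_mul_of_nonneg_left e3 hxy.le
      _ ≤ _ := by nlinarith

end Pool.Agent.H3.D6
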