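import Mathlib
import Pool.Agent.H3.D6.GFun
import Pool.Graph.R_seed8.Helper772.MV.Logs

/-!
# The integral of `|a'| |P|` over a thin annulus
-/

set_option autoImplicit false

open MeasureTheory Metric Set Filter Topology
open scoped ENNReal Real

namespace Pool.Agent.H3.D6

open MeanVal

/-- numerical parameters -/
noncomputable def pp : ℝ := 7 / 100
noncomputable def bb : ℝ := 1311 / 78125
noncomputable def ww : ℝ := 1533 / 3125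
noncomputable def gg : ℝ := 1 - 2 * pp + bb
noncomputable def ee : ℝ := 3 / 10000
noncomputable def rr : ℝ := 99985 / 100000

theorem ww_eq : ww * (2 - pp) = 1 - pp + bb := by unfold ww pp bb; norm_num

theorem cond_eq : pp ^ 2 * (4 * (1 + ee) / rr ^ 2 - 1) ≤ bb * gg := by
  unfold gg pp ee rr bb; norm_num

theorem bb_eq : bb - 1 = (ww - 1) * (2 - pp) := by unfold ww pp bb; norm_num

theorem norm_sub_circle_le {m : ℕ} (ζ : Fin m → ℂ) (hζ : ∀ l, ‖ζ l‖ = 1) (z : ℂ) (hz : ‖z‖ < 1) :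
    ∏ l, ‖z - ζ l‖ ≤ 2 ^ m := by
  have h3 : ∏ l : Fin m, ‖z - ζ l‖ ≤ ∏ l : Fin m, (2:ℝ) := by
    apply Finset.prod_le_prod (fun _ _ => norm_nonneg _)
    intro l _
    refine (norm_sub_le _ _).trans ?_
    rw [hζ]; linarith
  simpa using h3

theorem prod_circle_pos {m : ℕ} (ζ : Fin m → ℂ) (hζ : ∀ l, ‖ζ l‖ = 1) (z : ℂ) (hz : ‖z‖ < 1) :
    0 < ∏ l, ‖z - ζ l‖ := by
  apply Finset.prod_pos
  intro l _
  rw [norm_pos_iff, sub_ne_zero]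
  intro h
  rw [h, hζ] at hz
  exact lt_irrefl _ hz

/-- Koebe's second coefficient bound, in the form which is used -/
theorem koebe_form (a : ℂ → ℂ) (ha : DifferentiableOn ℂ a (ball 0 1)) (hinj : InjOn a (ball 0 1))
    (p : ℝ) (hp : 0 ≤ p) (z : ℂ) (hz : ‖z‖ < 1) :
    ‖((p / 2 : ℝ) : ℂ) * (z * (deriv (deriv a) z / deriv a z)) -
      ((p * ‖z‖ ^ 2 / (1 - ‖z‖ ^ 2) : ℝ) : ℂ)‖ ≤ 2 * p * ‖z‖ / (1 - ‖z‖ ^ 2) := by
  have hz' : z ∈ ball (0:ℂ) 1 := mem_ball_zero_iff.2 hz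
  have h1 := ZFM.J_b1.koebe_second ha hinj hz'
  have hd : deriv a z ≠ 0 :=
    Pool.Agent.Helper405.Conv.deriv_ne_zero_of_injOn isOpen_ball ha hinj hz'
  have hx : 0 < 1 - ‖z‖ ^ 2 := by nlinarith [norm_nonneg z]
  have hxc : (1 - (‖z‖:ℂ) ^ 2) ≠ 0 := by
    have : (1 - (‖z‖:ℂ) ^ 2) = ((1 - ‖z‖ ^ 2 : ℝ) : ℂ) := by push_cast; ring
    rw [this]
    exact_mod_cast hx.ne'
  have hdn : 0 < ‖deriv a z‖ := norm_pos_iff.2 hd
  have e1 : ((p / 2 : ℝ) : ℂ) * (z * (deriv (deriv a) z / deriv a z)) -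
      ((p * ‖z‖ ^ 2 / (1 - ‖z‖ ^ 2) : ℝ) : ℂ) =
      (((p / 2 : ℝ) : ℂ) * z / (deriv a z * ((1 - ‖z‖ ^ 2 : ℝ) : ℂ))) *
      (deriv (deriv a) z * (1 - ‖z‖ ^ 2 : ℝ) - 2 * (starRingEnd ℂ) z * deriv a z) := by
    have h2 : z * (starRingEnd ℂ) z = ((‖z‖ ^ 2 : ℝ) : ℂ) := by
      rw [Complex.mul_conj, Complex.normSq_eq_norm_sq]
    push_cast at h2 ⊢
    field_simp
    linear_combination (2 * (p:ℂ) * deriv a z) * h2
  rw [e1, norm_mul, norm_div, norm_mul, norm_mul, Complex.norm_real, Complex.norm_real,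
    Real.norm_of_nonneg (by linarith), Real.norm_of_nonneg hx.le]
  calc p / 2 * ‖z‖ / (‖deriv a z‖ * (1 - ‖z‖ ^ 2)) *
        ‖deriv (deriv a) z * (1 - ‖z‖ ^ 2 : ℝ) - 2 * (starRingEnd ℂ) z * deriv a z‖
      ≤ p / 2 * ‖z‖ / (‖deriv a z‖ * (1 - ‖z‖ ^ 2)) * (4 * ‖deriv a z‖) :=
        mul_le_mul_of_nonneg_left h1 (by positivity)
    _ = _ := by field_simp; ring

theorem annulus_measurable (a b : ℝ) : MeasurableSet {z : ℂ | a < ‖z‖ ∧ ‖z‖ < b} := by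
  apply MeasurableSet.inter
  · exact measurableSet_lt measurable_const measurable_norm
  · exact measurableSet_lt measurable_norm measurable_const

/-- the energy of `T` -/
theorem T_energy (m : ℕ) (C₃ : ℝ) (hC₃ : 0 ≤ C₃) (a T : ℂ → ℂ) (n : ℕ) (hn : 2 ≤ n)
    (hEn : ∫⁻ z in {z : ℂ | rr < ‖z‖ ∧ ‖z‖ < 1 - 1 / (n:ℝ)},
        ENNReal.ofReal ((‖deriv a z‖ / ‖a z‖) ^ 2) ≤ ENNReal.ofReal (C₃ * (1 + Real.log n)))
    (ζ : Fin m → ℂ) (hζ : ∀ l, ‖ζ l‖ = 1)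
    (hT : ∀ z : ℂ, ‖z‖ < 1 → ‖T z‖ ^ 2 ≤
        2 * ((m : ℝ) + 1) * ((‖deriv a z‖ / ‖a z‖) ^ 2 + ∑ l, 1 / ‖z - ζ l‖ ^ 2)) :
    ∫⁻ z in {z : ℂ | rr < ‖z‖ ∧ ‖z‖ < 1 - 1 / (n:ℝ)}, ENNReal.ofReal (‖T z‖ ^ 2) ≤
      ENNReal.ofReal (2 * ((m : ℝ) + 1) * (C₃ + 2 * π * m) * (1 + Real.log n)) := by
  have hpi := Real.pi_pos
  have hn2 : (2:ℝ) ≤ n := by exact_mod_cast hn
  have hn0 : (0:ℝ) < n := by linarith
  have hlogn : 0 ≤ Real.log n := Real.log_nonneg (by linarith)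
  have hinv : 0 < 1 / (n:ℝ) := by positivity
  set A : Set ℂ := {z : ℂ | rr < ‖z‖ ∧ ‖z‖ < 1 - 1 / (n:ℝ)} with hA
  have hAm : MeasurableSet A := annulus_measurable _ _
  have hm0 : (0:ℝ) ≤ m := Nat.cast_nonneg m
  have h1 : ∫⁻ z in A, ENNReal.ofReal (‖T z‖ ^ 2) ≤
      ∫⁻ z in A, ENNReal.ofReal (2 * ((m:ℝ) + 1)) * (ENNReal.ofReal ((‖deriv a z‖ / ‖a z‖) ^ 2) +
        ∑ l, ENNReal.ofReal (1 / ‖z - ζ l‖ ^ 2)) := by
    refine setLIntegral_mono' hAm ?_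
    intro z hz
    have hz1 : ‖z‖ < 1 := hz.2.trans (by linarith)
    refine (ENNReal.ofReal_le_ofReal (hT z hz1)).trans (le_of_eq ?_)
    rw [ENNReal.ofReal_mul (by positivity), ENNReal.ofReal_add (by positivity)
      (Finset.sum_nonneg fun l _ => by positivity),
      ENNReal.ofReal_sum_of_nonneg (fun l _ => by positivity)]
  refine h1.trans ?_
  rw [lintegral_const_mul' _ _ ENNReal.ofReal_ne_top, lintegral_add_right _ (by fun_prop),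
    lintegral_finsetSum _ (fun l _ => by fun_prop)]
  have h2 : ∀ l : Fin m, ∫⁻ z in A, ENNReal.ofReal (1 / ‖z - ζ l‖ ^ 2) ≤
      ENNReal.ofReal (2 * π * (1 + Real.log n)) := by
    intro l
    have h3 := Logs.pole_integral (ζ l) (hζ l) n hn
    have h4 : A ⊆ ball (0:ℂ) (1 - 1 / (n:ℝ)) := by
      intro z hz
      rw [mem_ball_zero_iff]; exact hz.2
    refine (lintegral_mono_set h4).trans (h3.trans ?_)
    apply ENNReal.ofReal_le_ofReal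
    rw [Real.log_mul (by norm_num) hn0.ne']
    have : Real.log 2 ≤ 1 := by
      have := Real.log_two_lt_d9; linarith
    apply mul_le_mul_of_nonneg_left _ (by positivity)
    linarith
  have h5 : ∑ l : Fin m, ∫⁻ z in A, ENNReal.ofReal (1 / ‖z - ζ l‖ ^ 2) ≤
      ENNReal.ofReal (m * (2 * π * (1 + Real.log n))) := by
    refine (Finset.sum_le_sum fun l _ => h2 l).trans (le_of_eq ?_)
    rw [Finset.sum_const, Finset.card_univ, Fintype.card_fin, nsmul_eq_mul,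
      ENNReal.ofReal_mul hm0, ENNReal.ofReal_natCast]
  calc ENNReal.ofReal (2 * ((m:ℝ) + 1)) * ((∫⁻ z in A, ENNReal.ofReal ((‖deriv a z‖ / ‖a z‖) ^ 2)) +
        ∑ l : Fin m, ∫⁻ z in A, ENNReal.ofReal (1 / ‖z - ζ l‖ ^ 2))
      ≤ ENNReal.ofReal (2 * ((m:ℝ) + 1)) * (ENNReal.ofReal (C₃ * (1 + Real.log n)) +
        ENNReal.ofReal (m * (2 * π * (1 + Real.log n)))) := by
        gcongr
    _ = _ := by
        rw [← ENNReal.ofReal_add (by positivity) (by positivity),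
          ← ENNReal.ofReal_mul (by positivity)]
        congr 1
        ring

set_option maxHeartbeats 1000000 in
theorem mean_bound (a : ℂ → ℂ) (ha : DifferentiableOn ℂ a (ball 0 1)) (hinj : InjOn a (ball 0 1))
    (ha0 : ∀ z ∈ ball (0:ℂ) 1, a z ≠ 0) (C₁ C₃ : ℝ) (hC₁ : 0 ≤ C₁) (hC₃ : 0 ≤ C₃)
    (hL : ∀ z : ℂ, ‖z‖ < 1 → ‖deriv a z‖ * (1 - ‖z‖) ≤ C₁ * ‖a z‖)
    (hEn : ∀ n : ℕ, 2 ≤ n → ∫⁻ z in {z : ℂ | rr < ‖z‖ ∧ ‖z‖ < 1 - 1 / (n:ℝ)},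
        ENNReal.ofReal ((‖deriv a z‖ / ‖a z‖) ^ 2) ≤ ENNReal.ofReal (C₃ * (1 + Real.log n)))
    (m : ℕ) :
    ∃ C : ℝ, 0 ≤ C ∧ ∀ n : ℕ, 2 ≤ n → rr ≤ 1 - 1 / (n:ℝ) → ∀ ζ : Fin m → ℂ,
      (∀ l, ‖ζ l‖ = 1) → ∀ B : ℝ, 0 ≤ B →
      (∀ z : ℂ, rr ≤ ‖z‖ → ‖z‖ ≤ 1 - 1 / (n:ℝ) →
        (‖a z‖ * ∏ l, ‖z - ζ l‖) * (1 - ‖z‖) ^ ww ≤ B) →
      ∀ G T : ℂ → ℂ, DifferentiableOn ℂ G (ball 0 1) → ContinuousOn T (ball 0 1) →
      (∀ z : ℂ, ‖z‖ < 1 → z * deriv G z =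
        (((pp / 2 : ℝ) : ℂ) * (z * (deriv (deriv a) z / deriv a z)) + T z) * G z) →
      (∀ z : ℂ, ‖z‖ < 1 → ‖G z‖ ^ 2 =
        ‖a z‖ ^ (2 - 2 * pp) * (∏ l, ‖z - ζ l‖) ^ (2 - pp) * ‖deriv a z‖ ^ pp) →
      (∀ z : ℂ, ‖z‖ < 1 → ‖T z‖ ^ 2 ≤
        2 * ((m : ℝ) + 1) * ((‖deriv a z‖ / ‖a z‖) ^ 2 + ∑ l, 1 / ‖z - ζ l‖ ^ 2)) →
      U (csq G) 0 (1 - 1 / (n:ℝ)) ≤ C * ((n:ℝ) ^ bb * (1 + B) ^ (2 - pp) * (1 + Real.log n)) := by
  have hpi := Real.pi_pos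
  have hpp0 : 0 < pp := by unfold pp; norm_num
  have hpp1 : pp ≤ 1 := by unfold pp; norm_num
  have hbb0 : 0 < bb := by unfold bb; norm_num
  have hgg0 : 0 < gg := by unfold gg pp bb; norm_num
  have hee0 : 0 < ee := by unfold ee; norm_num
  have hrr0 : 0 < rr := by unfold rr; norm_num
  have hrr1 : rr < 1 := by unfold rr; norm_num
  set r' : ℝ := (1 + rr) / 2 with hr'
  have hr'1 : r' < 1 := by rw [hr']; linarith
  have hr'0 : rr < r' := by rw [hr']; linarith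
  obtain ⟨C₈, hC₈, hU1⟩ := U_one_le rr r' hrr0.le hr'0 hr'1
  -- bounds on compact discs
  have hda : DifferentiableOn ℂ (deriv a) (ball 0 1) := ha.deriv isOpen_ball
  have hcomp : ∀ u : ℂ → ℂ, DifferentiableOn ℂ u (ball 0 1) → ∃ M : ℝ, 0 ≤ M ∧
      ∀ z : ℂ, ‖z‖ = r' → ‖u z‖ ≤ M := by
    intro u hu
    obtain ⟨M, hM⟩ := (isCompact_sphere (0:ℂ) r').exists_bound_of_continuousOn
      (hu.continuousOn.mono (by
        intro z hz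
        rw [mem_sphere_zero_iff_norm] at hz
        rw [mem_ball_zero_iff, hz]; exact hr'1))
    refine ⟨max M 0, le_max_right _ _, fun z hz => (hM z ?_).trans (le_max_left _ _)⟩
    rw [mem_sphere_zero_iff_norm]; exact hz
  obtain ⟨Ma, hMa0, hMa⟩ := hcomp a ha
  obtain ⟨Md, hMd0, hMd⟩ := hcomp (deriv a) hda
  set M₀ : ℝ := Ma ^ (2 - 2 * pp) * ((2:ℝ) ^ m) ^ (2 - pp) * Md ^ pp with hM₀
  have hM₀0 : 0 ≤ M₀ := by positivity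
  set C₁₀ : ℝ := ((1 - rr ^ 2) / rr ^ 2 * C₈ + gg) * M₀ with hC₁₀
  have hx0 : 0 < 1 - rr ^ 2 := by nlinarith
  have hC₁₀0 : 0 ≤ C₁₀ := by positivity
  set C₁₁ : ℝ := (1 + 1 / ee) / (π * rr ^ 4) with hC₁₁
  have hC₁₁0 : 0 ≤ C₁₁ := by positivity
  set CD : ℝ := 2 ^ (1 + bb) * C₁ ^ pp with hCD
  have hCD0 : 0 ≤ CD := by positivity
  set C₉ : ℝ := 2 * ((m : ℝ) + 1) * (C₃ + 2 * π * m) with hC₉
  have hC₉0 : 0 ≤ C₉ := by positivity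
  refine ⟨(C₁₀ + C₁₁ * CD * C₉) / gg, by positivity, ?_⟩
  intro n hn hrn ζ hζ B hB hBsup G T hG hTc hEuler hGn hTn
  have hn2 : (2:ℝ) ≤ n := by exact_mod_cast hn
  have hn0 : (0:ℝ) < n := by linarith
  have hinv : 0 < 1 / (n:ℝ) := by positivity
  have hlogn : 0 ≤ Real.log n := Real.log_nonneg (by linarith)
  set R : ℝ := 1 - 1 / (n:ℝ) with hR
  have hR1 : R < 1 := by rw [hR]; linarith
  have hR0 : 0 < R := hrr0.trans_le hrn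
  have hc : SumOK (csq G) := sumOK_coeff G hG
  set D : ℝ := CD * B ^ (2 - pp) with hD
  have hGD : ∀ z : ℂ, rr ≤ ‖z‖ → ‖z‖ ≤ R → (1 - ‖z‖ ^ 2) ^ (1 + bb) * ‖G z‖ ^ 2 ≤ D := by
    intro z hz1 hz2
    have hz3 : ‖z‖ < 1 := lt_of_le_of_lt hz2 hR1
    have hzb : z ∈ ball (0:ℂ) 1 := mem_ball_zero_iff.2 hz3
    rw [hGn z hz3, hD, hCD]
    exact G_sup pp bb ww C₁ B (1 - ‖z‖) ‖a z‖ ‖deriv a z‖ (∏ l, ‖z - ζ l‖) hpp0.le hpp1 hbb0.le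
      ww_eq (by linarith) (norm_pos_iff.2 (ha0 z hzb)) (norm_nonneg _)
      (prod_circle_pos ζ hζ z hz3).le hC₁ (hL z hz3) (hBsup z hz1 hz2) (1 - ‖z‖ ^ 2)
      (by nlinarith [norm_nonneg z]) (by nlinarith [norm_nonneg z])
  have hA : ∀ z : ℂ, rr ≤ ‖z‖ → ‖z‖ < 1 →
      ‖(fun z => ((pp / 2 : ℝ) : ℂ) * (z * (deriv (deriv a) z / deriv a z))) z -
        ((pp * ‖z‖ ^ 2 / (1 - ‖z‖ ^ 2) : ℝ) : ℂ)‖ ≤ 2 * pp * ‖z‖ / (1 - ‖z‖ ^ 2) :=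
    fun z _ hz => koebe_form a ha hinj pp hpp0.le z hz
  have hgrow := growth pp bb gg ee rr hpp0 hbb0 rfl hee0 hrr0 cond_eq G T
    (fun z => ((pp / 2 : ℝ) : ℂ) * (z * (deriv (deriv a) z / deriv a z))) hG hTc hEuler hA R D
    hrn hR1 hGD
  -- energy of T
  have hTE := T_energy m C₃ hC₃ a T n hn (hEn n hn) ζ hζ hTn
  have hTcc : ContinuousOn (fun z => ‖T z‖ ^ 2) {z : ℂ | rr ≤ ‖z‖ ∧ ‖z‖ ≤ R} := by
    refine (hTc.norm.pow 2).mono ?_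
    intro z hz
    rw [mem_ball_zero_iff]
    exact lt_of_le_of_lt hz.2 hR1
  rw [polar_annulus (fun z => ‖T z‖ ^ 2) rr R hrr0 hrn hTcc (fun z _ _ => by positivity)] at hTE
  have hTE' : ∫ s in rr..R, s * ∫ θ in (-π)..π, ‖T (cp s θ)‖ ^ 2 ≤ C₉ * (1 + Real.log n) :=
    (ENNReal.ofReal_le_ofReal_iff (by positivity)).1 hTE
  -- initial value
  have hU0r' : U (csq G) 0 r' ≤ M₀ := by
    apply U_zero_le_sup G hG r' M₀ (by linarith) hr'1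
    intro z hz
    have hz3 : ‖z‖ < 1 := by rw [hz]; exact hr'1
    have hP0 := (prod_circle_pos ζ hζ z hz3).le
    rw [hGn z hz3, hM₀]
    have h1 : ‖a z‖ ^ (2 - 2 * pp) ≤ Ma ^ (2 - 2 * pp) :=
      Real.rpow_le_rpow (norm_nonneg _) (hMa z hz) (by unfold pp; norm_num)
    have h2 : (∏ l, ‖z - ζ l‖) ^ (2 - pp) ≤ ((2:ℝ) ^ m) ^ (2 - pp) :=
      Real.rpow_le_rpow hP0 (norm_sub_circle_le ζ hζ z hz3) (by linarith)
    have h3 : ‖deriv a z‖ ^ pp ≤ Md ^ pp :=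
      Real.rpow_le_rpow (norm_nonneg _) (hMd z hz) hpp0.le
    have h4 : 0 ≤ (∏ l, ‖z - ζ l‖) ^ (2 - pp) := Real.rpow_nonneg hP0 _
    exact mul_le_mul (mul_le_mul h1 h2 h4 (by positivity)) h3 (by positivity) (by positivity)
  have hU0r : U (csq G) 0 rr ≤ M₀ := (U_zero_mono hc hrr0.le hr'0.le hr'1).trans hU0r'
  have hK0 : Kf gg (csq G) rr ≤ C₁₀ := by
    rw [Kf, hC₁₀]
    have h1 : U (csq G) 1 rr ≤ C₈ * M₀ :=
      (hU1 _ hc).trans (mul_le_mul_of_nonneg_left hU0r' hC₈)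
    have h2 : (1 - rr ^ 2) / rr ^ 2 * U (csq G) 1 rr ≤ (1 - rr ^ 2) / rr ^ 2 * (C₈ * M₀) :=
      mul_le_mul_of_nonneg_left h1 (by positivity)
    have h3 : gg * U (csq G) 0 rr ≤ gg * M₀ := mul_le_mul_of_nonneg_left hU0r hgg0.le
    linarith
  have hK0' : (1 - rr ^ 2) ^ bb * Kf gg (csq G) rr ≤ C₁₀ := by
    have h1 : (1 - rr ^ 2) ^ bb ≤ 1 := Real.rpow_le_one hx0.le (by nlinarith) hbb0.le
    have h2 : 0 ≤ (1 - rr ^ 2) ^ bb := Real.rpow_nonneg hx0.le _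
    calc (1 - rr ^ 2) ^ bb * Kf gg (csq G) rr ≤ (1 - rr ^ 2) ^ bb * C₁₀ :=
          mul_le_mul_of_nonneg_left hK0 h2
      _ ≤ 1 * C₁₀ := mul_le_mul_of_nonneg_right h1 hC₁₀0
      _ = C₁₀ := one_mul _
  -- final value
  have hxR : 0 < 1 - R ^ 2 := by nlinarith
  have hxR' : 1 / (n:ℝ) ≤ 1 - R ^ 2 := by
    have h1 : 1 / (n:ℝ) = 1 - R := by rw [hR]; ring
    rw [h1]; nlinarith
  have hlow : gg * U (csq G) 0 R ≤ Kf gg (csq G) R := by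
    rw [Kf]
    have := U_nonneg hc 1 (s := R)
    have h2 : 0 ≤ (1 - R ^ 2) / R ^ 2 * U (csq G) 1 R := by positivity
    linarith
  have hpow : ((n:ℝ) ^ bb)⁻¹ ≤ (1 - R ^ 2) ^ bb := by
    rw [← Real.inv_rpow hn0.le, ← one_div]
    exact Real.rpow_le_rpow hinv.le hxR' hbb0.le
  have hnb : 0 < (n:ℝ) ^ bb := Real.rpow_pos_of_pos hn0 _
  have hB1 : B ^ (2 - pp) ≤ (1 + B) ^ (2 - pp) :=
    Real.rpow_le_rpow hB (by linarith) (by linarith)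
  have hB2 : (1:ℝ) ≤ (1 + B) ^ (2 - pp) := Real.one_le_rpow (by linarith) (by linarith)
  have hBp : 0 ≤ B ^ (2 - pp) := Real.rpow_nonneg hB _
  have hU0R := U_nonneg hc 0 (s := R)
  have hW : (1 - R ^ 2) ^ bb * Kf gg (csq G) R ≤
      (C₁₀ + C₁₁ * CD * C₉) * ((1 + B) ^ (2 - pp) * (1 + Real.log n)) := by
    have hD0 : 0 ≤ D := by positivity
    have h1 : C₁₁ * D * ∫ s in rr..R, s * ∫ θ in (-π)..π, ‖T (cp s θ)‖ ^ 2 ≤
        C₁₁ * D * (C₉ * (1 + Real.log n)) := mul_le_mul_of_nonneg_left hTE' (by positivity)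
    have h2 : C₁₁ * D * (C₉ * (1 + Real.log n)) ≤
        C₁₁ * CD * C₉ * ((1 + B) ^ (2 - pp) * (1 + Real.log n)) := by
      rw [hD]
      have h3 : C₁₁ * (CD * B ^ (2 - pp)) * (C₉ * (1 + Real.log n)) =
          C₁₁ * CD * C₉ * (B ^ (2 - pp) * (1 + Real.log n)) := by ring
      rw [h3]
      apply mul_le_mul_of_nonneg_left _ (by positivity)
      exact mul_le_mul_of_nonneg_right hB1 (by linarith)
    have h4 : C₁₀ ≤ C₁₀ * ((1 + B) ^ (2 - pp) * (1 + Real.log n)) := by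
      have h5 : 1 ≤ (1 + B) ^ (2 - pp) * (1 + Real.log n) := by nlinarith
      nlinarith
    linarith
  have hfin : gg * U (csq G) 0 R * ((n:ℝ) ^ bb)⁻¹ ≤
      (C₁₀ + C₁₁ * CD * C₉) * ((1 + B) ^ (2 - pp) * (1 + Real.log n)) := by
    refine le_trans ?_ hW
    calc gg * U (csq G) 0 R * ((n:ℝ) ^ bb)⁻¹ ≤ gg * U (csq G) 0 R * (1 - R ^ 2) ^ bb :=
          mul_le_mul_of_nonneg_left hpow (by positivity)
      _ = (1 - R ^ 2) ^ bb * (gg * U (csq G) 0 R) := by ring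
      _ ≤ (1 - R ^ 2) ^ bb * Kf gg (csq G) R :=
          mul_le_mul_of_nonneg_left hlow (Real.rpow_nonneg hxR.le _)
  rw [← div_eq_mul_inv, div_le_iff₀ hnb] at hfin
  rw [div_mul_eq_mul_div, le_div_iff₀ hgg0]
  calc U (csq G) 0 R * gg = gg * U (csq G) 0 R := mul_comm _ _
    _ ≤ _ := hfin
    _ = _ := by ring

end Pool.Agent.H3.D6
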