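import Mathlib
import Pool.Graph.R_seed8.Helper772.MV.Cert
import Pool.Graph.R_seed8.Helper772.MV.CertT

/-!
# The linear programming certificate for a general weight exponent

A version of the certificate of `Pool.Graph.R_seed8.Helper772.MV.Cert` in which the weight
`sqrt (1 - |z|)` is replaced by `(1 - |z|) ^ w`.
-/

set_option autoImplicit false

open MeasureTheory Metric Set
open scoped ENNReal Real

namespace Pool.Agent.H3.D6

open MeanVal

theorem cert_ineq (N : ℕ) (w κ t V C₁ C₂ : ℝ) (hκ : κ ≤ 1)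
    (lam μ σ : Fin N → ℝ) (hlam : ∀ i, 0 ≤ lam i) (hlam1 : ∑ i, lam i = 1)
    (hμ : ∀ i, 0 ≤ μ i) (hσ : ∀ i, 0 ≤ σ i) (hsq : ∀ i, σ i ^ 2 = w * lam i + μ i)
    (htail : ∀ j, ∑ i ∈ Finset.univ.filter (fun i => j ≤ i), lam i ≤
      (∑ i ∈ Finset.univ.filter (fun i => j ≤ i), σ i) ^ 2 / (2 * 1))
    (hpair : ∀ i k, i ≠ k → 2 * σ i * σ k ≤ lam i + lam k)
    (u τ : Fin N → ℝ) (s : Fin N → Fin N → ℝ) (hu0 : ∀ i, 0 ≤ u i) (hmono : Monotone u)
    (hsymm : ∀ i k, s i k = s k i) (hslow : ∀ i k, - Real.log 2 ≤ s i k)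
    (hdiag : ∀ i, s i i = τ i) (hτt : ∀ i, τ i ≤ t)
    (h1 : ∀ i, V + ∑ k ∈ Finset.univ.erase i, s i k - C₁ ≤ u i - w * τ i)
    (h2 : κ * ∑ i, ∑ j, σ i * σ j * min (u i) (u j) ≤
      2 * (∑ i, ∑ j, σ i * σ j * s i j) + C₂) :
    V ≤ (∑ i, μ i) * t + (1 - κ) * (∑ i, ∑ j, σ i * σ j * min (u i) (u j)) / 2
      + C₁ + C₂ / 2 + 2 * (N : ℝ) ^ 2 := by
  have hA := Cert.cert_aux 1 one_pos N lam σ u hu0 hmono (fun j => by
    rw [← Finset.sum_filter, ← Finset.sum_filter]
    exact htail j)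
  rw [mul_one] at hA
  set Q := ∑ i, ∑ j, σ i * σ j * min (u i) (u j) with hQ
  set T := ∑ i, ∑ j, σ i * σ j * s i j with hT
  have hlamle : ∀ i, lam i ≤ 1 := by
    intro i
    rw [← hlam1]
    exact Finset.single_le_sum (fun j _ => hlam j) (Finset.mem_univ i)
  -- step 2
  have hB : V + ∑ i, lam i * (∑ k, s i k - τ i) - C₁ ≤
      ∑ i, lam i * u i - w * ∑ i, lam i * τ i := by
    have h3 : ∑ i, lam i * (V + (∑ k, s i k - τ i) - C₁) ≤ ∑ i, lam i * (u i - w * τ i) := by
      apply Finset.sum_le_sum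
      intro i _
      apply mul_le_mul_of_nonneg_left _ (hlam i)
      have h4 := h1 i
      have h5 : ∑ k ∈ Finset.univ.erase i, s i k = ∑ k, s i k - τ i := by
        rw [← Finset.sum_erase_add Finset.univ _ (Finset.mem_univ i), hdiag i]
        ring
      rw [h5] at h4
      exact h4
    have e1 : ∑ i, lam i * (V + (∑ k, s i k - τ i) - C₁) =
        V + ∑ i, lam i * (∑ k, s i k - τ i) - C₁ := by
      have : ∀ i, lam i * (V + (∑ k, s i k - τ i) - C₁) =
          lam i * (V - C₁) + lam i * (∑ k, s i k - τ i) := by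
        intro i
        ring
      simp_rw [this]
      rw [Finset.sum_add_distrib, ← Finset.sum_mul, hlam1]
      ring
    have e2 : ∑ i, lam i * (u i - w * τ i) = ∑ i, lam i * u i - w * ∑ i, lam i * τ i := by
      rw [Finset.mul_sum, ← Finset.sum_sub_distrib]
      apply Finset.sum_congr rfl
      intro i _
      ring
    rw [e1, e2] at h3
    exact h3
  -- step 3
  have hC : Q / 2 ≤ T + C₂ / 2 + (1 - κ) * Q / 2 := by
    have e2 : Q / 2 = κ * Q / 2 + (1 - κ) * Q / 2 := by ring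
    linarith
  -- step 4
  have hlog : Real.log 2 ≤ 1 := by
    have := Real.log_two_lt_d9
    linarith
  have hD : ∑ i, ∑ k, (2 * σ i * σ k - lam i - lam k) * s i k / 2 ≤
      ∑ i, ∑ k, ((if i = k then (μ i * t - (1 - w) * (lam i * τ i)) else 0) + 1) := by
    apply Finset.sum_le_sum
    intro i _
    apply Finset.sum_le_sum
    intro k _
    by_cases hik : i = k
    · subst hik
      simp only [if_true]
      rw [hdiag i]
      have h3 := hsq i
      have h4 : μ i * τ i ≤ μ i * t := mul_le_mul_of_nonneg_left (hτt i) (hμ i)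
      have h5 : (2 * σ i * σ i - lam i - lam i) * τ i / 2 = (σ i ^ 2 - lam i) * τ i := by ring
      rw [h5, h3]
      nlinarith [h4]
    · simp only [hik, if_false, zero_add]
      have h3 := hpair i k hik
      have h4 := hslow i k
      have h5 := mul_nonneg (hσ i) (hσ k)
      have h6 := hlamle i
      have h7 := hlamle k
      have h8 : 0 ≤ Real.log 2 := Real.log_nonneg (by norm_num)
      have h9 : (lam i + lam k - 2 * σ i * σ k) * (- s i k) ≤
          (lam i + lam k - 2 * σ i * σ k) * Real.log 2 := by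
        apply mul_le_mul_of_nonneg_left _ (by linarith)
        linarith
      have h10 : (lam i + lam k - 2 * σ i * σ k) * Real.log 2 ≤ 2 * 1 := by
        apply mul_le_mul _ hlog h8 (by norm_num)
        linarith
      have h11 : (2 * σ i * σ k - lam i - lam k) * s i k / 2 =
          (lam i + lam k - 2 * σ i * σ k) * (- s i k) / 2 := by ring
      rw [h11]
      linarith
  have hE : ∑ i, ∑ k, ((if i = k then (μ i * t - (1 - w) * (lam i * τ i)) else 0) + (1 : ℝ)) =
      (∑ i, μ i) * t - (1 - w) * ∑ i, lam i * τ i + (N : ℝ) ^ 2 := by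
    simp only [Finset.sum_add_distrib, Finset.sum_ite_eq, Finset.mem_univ, if_true,
      Finset.sum_const, Finset.card_univ, Fintype.card_fin, nsmul_eq_mul, mul_one,
      Finset.sum_sub_distrib, Finset.sum_mul, Finset.mul_sum]
    ring
  have hF : ∑ i, ∑ k, (2 * σ i * σ k - lam i - lam k) * s i k / 2 =
      T - ∑ i, lam i * ∑ k, s i k := by
    have e1 : ∀ i k, (2 * σ i * σ k - lam i - lam k) * s i k / 2 =
        σ i * σ k * s i k - (lam i * s i k / 2 + lam k * s i k / 2) := by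
      intro i k
      ring
    simp_rw [e1, Finset.sum_sub_distrib, Finset.sum_add_distrib]
    have e2 : ∑ i, ∑ k, lam k * s i k / 2 = ∑ i, ∑ k, lam i * s i k / 2 := by
      rw [Finset.sum_comm]
      apply Finset.sum_congr rfl
      intro i _
      apply Finset.sum_congr rfl
      intro k _
      rw [hsymm k i]
    rw [e2, ← hT]
    have e3 : ∑ i, lam i * ∑ k, s i k =
        ∑ i, ∑ k, lam i * s i k / 2 + ∑ i, ∑ k, lam i * s i k / 2 := by
      rw [← Finset.sum_add_distrib]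
      apply Finset.sum_congr rfl
      intro i _
      rw [← Finset.sum_add_distrib, Finset.mul_sum]
      apply Finset.sum_congr rfl
      intro k _
      ring
    rw [e3]
  have hG : ∑ i, lam i * (∑ k, s i k - τ i) =
      ∑ i, lam i * ∑ k, s i k - ∑ i, lam i * τ i := by
    rw [← Finset.sum_sub_distrib]
    apply Finset.sum_congr rfl
    intro i _
    ring
  rw [hF, hE] at hD
  rw [hG] at hB
  have hN : 0 ≤ (N : ℝ) ^ 2 := by positivity
  linarith

/-- abstract certificate: `σ` certifies the exponent `Vs` for the weight exponent `w` -/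
def CertOK (N : ℕ) (w Vs : ℝ) (σ : Fin N → ℝ) : Prop :=
  ∃ C₃ : ℝ, ∀ (κ t V C₁ C₂ : ℝ) (u τ : Fin N → ℝ) (s : Fin N → Fin N → ℝ), κ ≤ 1 →
    (∀ i, 0 ≤ u i) → Monotone u → (∀ i k, s i k = s k i) → (∀ i k, - Real.log 2 ≤ s i k) →
    (∀ i, s i i = τ i) → (∀ i, τ i ≤ t) →
    (∀ i, V + ∑ k ∈ Finset.univ.erase i, s i k - C₁ ≤ u i - w * τ i) →
    (κ * ∑ i, ∑ j, σ i * σ j * min (u i) (u j) ≤
      2 * (∑ i, ∑ j, σ i * σ j * s i j) + C₂) →
    V ≤ Vs * t + (1 - κ) * (∑ i, ∑ j, σ i * σ j * min (u i) (u j)) / 2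
      + C₁ + C₂ / 2 + C₃

/-- tail-tight certificates -/
theorem certOK_of_T (m : ℕ) (w : ℝ) (hw : 0 < w) (T : ℕ → ℝ)
    (hTm : T (m + 1) = 0) (hT0 : T 0 ^ 2 = 2) (hnn : ∀ i ≤ m, 0 ≤ T i)
    (hg : ∀ i ≤ m, (2 + w) * T (i + 1) ≤ (2 - w) * T i) (b : ℝ)
    (hb : ∑ i ∈ Finset.range (m + 1), ((T i - T (i + 1)) ^ 2 - w * (T i ^ 2 - T (i + 1) ^ 2) / 2)
      = b) : (∀ i : Fin (m + 1), 0 ≤ T i - T (i + 1) ∧ T i - T (i + 1) ≤ 2) ∧
      CertOK (m + 1) w b (fun i : Fin (m + 1) => T i - T (i + 1)) := by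
  have hnn' : ∀ i ≤ m + 1, 0 ≤ T i := by
    intro i hi
    rcases Nat.lt_or_ge i (m + 1) with h | h
    · exact hnn i (by omega)
    · have : i = m + 1 := by omega
      rw [this, hTm]
  have hdec : ∀ i ≤ m, T (i + 1) ≤ T i := by
    intro i hi
    have h1 := hg i hi
    have h2 := hnn i hi
    have h3 := hnn' (i + 1) (by omega)
    nlinarith
  have hanti : ∀ i j, i ≤ j → j ≤ m + 1 → T j ≤ T i := by
    intro i j hij hj
    induction j, hij using Nat.le_induction with
    | base => exact le_rfl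
    | succ j hij ih => exact (hdec j (by omega)).trans (ih (by omega))
  set σ : ℕ → ℝ := fun i => T i - T (i + 1) with hσ
  set lam : ℕ → ℝ := fun i => (T i ^ 2 - T (i + 1) ^ 2) / 2 with hlam
  set μ : ℕ → ℝ := fun i => (T i - T (i + 1)) ^ 2 - w * (T i ^ 2 - T (i + 1) ^ 2) / 2 with hμ
  have hσ0 : ∀ i ≤ m, 0 ≤ σ i := fun i hi => by
    simp only [hσ]; linarith [hdec i hi]
  have hlam0 : ∀ i ≤ m, 0 ≤ lam i := by
    intro i hi
    simp only [hlam]
    apply div_nonneg _ (by positivity)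
    have h1 := hdec i hi
    have h2 := hnn' (i + 1) (by omega)
    nlinarith
  have hμ0 : ∀ i ≤ m, 0 ≤ μ i := by
    intro i hi
    have h1 := hdec i hi
    have h2 := hg i hi
    have h3 : μ i = (T i - T (i + 1)) * ((2 - w) * T i - (2 + w) * T (i + 1)) / 2 := by
      simp only [hμ]
      ring
    rw [h3]
    apply div_nonneg _ (by positivity)
    apply mul_nonneg <;> linarith
  have hpair : ∀ i k, i < k → k ≤ m → 2 * σ i * σ k ≤ lam i + lam k := by
    intro i k hik hk
    have h1 := hσ0 i (by omega)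
    have h2 := hσ0 k hk
    have h3 : T k ≤ T (i + 1) := hanti (i + 1) k (by omega) (by omega)
    have h4 := hnn' (k + 1) (by omega)
    have h5 : lam i = σ i * (σ i + 2 * T (i + 1)) / 2 := by
      simp only [hσ, hlam]; ring
    have h6 : lam k = σ k * (σ k + 2 * T (k + 1)) / 2 := by
      simp only [hσ, hlam]; ring
    have h7 : σ k ≤ T (i + 1) := by
      simp only [hσ]; linarith
    have h8 : (σ i + σ k) ^ 2 / 2 ≤ lam i + lam k := by
      rw [h5, h6, ← add_div]
      apply div_le_div_of_nonneg_right _ (by positivity)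
      nlinarith [mul_nonneg h1 (sub_nonneg.2 h7), mul_nonneg h2 h4]
    refine le_trans ?_ h8
    rw [le_div_iff₀ (by positivity)]
    nlinarith [mul_nonneg h1 h2, sq_nonneg (σ i - σ k)]
  have hbsum : ∑ i : Fin (m + 1), μ i = b := by
    rw [Fin.sum_univ_eq_sum_range]
    exact hb
  refine ⟨?_, ?_⟩
  · intro i
    refine ⟨hσ0 i (by omega), ?_⟩
    have h1 : σ i ≤ T 0 := by
      have h2 := hanti 0 i (Nat.zero_le _) (by omega)
      have h3 := hnn' (i + 1) (by omega)
      simp only [hσ]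
      linarith
    have h2 : T 0 ≤ 2 := by
      have := hnn 0 (Nat.zero_le _)
      nlinarith
    exact h1.trans h2
  · rw [← hbsum]
    refine ⟨2 * ((m + 1 : ℕ) : ℝ) ^ 2, ?_⟩
    intro κ t V C₁ C₂ u τ s hκ hu0 hmono hsymm hslow hdiag hτt h1 h2
    refine cert_ineq (m + 1) w κ t V C₁ C₂ hκ (fun i : Fin (m + 1) => lam i)
      (fun i : Fin (m + 1) => μ i) (fun i : Fin (m + 1) => σ i) (fun i => hlam0 i (by omega))
      ?_ (fun i => hμ0 i (by omega)) (fun i => hσ0 i (by omega)) ?_ ?_ ?_ u τ s hu0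
      hmono hsymm hslow hdiag hτt h1 h2
    · rw [Fin.sum_univ_eq_sum_range (fun i => lam i), Finset.range_eq_Ico]
      simp only [hlam]
      rw [← Finset.sum_div, tele_Ico (fun i => T i ^ 2) 0 (m + 1) (by omega), hTm, hT0]
      norm_num
    · intro i
      simp only [hσ, hlam, hμ]
      ring
    · intro j
      rw [tail_sum (m + 1) lam j, tail_sum (m + 1) σ j]
      simp only [hlam, hσ]
      rw [← Finset.sum_div, tele_Ico (fun i => T i ^ 2) j (m + 1) (by omega),
        tele_Ico T j (m + 1) (by omega), hTm]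
      apply le_of_eq
      ring
    · intro i k hik
      have hik' : (i:ℕ) ≠ k := fun h => hik (Fin.ext h)
      rcases Nat.lt_or_gt_of_ne hik' with h | h
      · exact hpair i k h (by omega)
      · have := hpair k i h (by omega)
        linarith

/-- The certificate for `m + 1` zeros and the weight exponent `w ≤ 2/3`. -/
theorem exists_cert (m : ℕ) (w : ℝ) (hw : 0 < w) (hw1 : w ≤ 2 / 3) :
    ∃ σ : Fin (m + 1 + 1) → ℝ, (∀ i, 0 ≤ σ i ∧ σ i ≤ 2) ∧
      CertOK (m + 1 + 1) w ((1 - w) * ((2 - w) / (2 + w)) ^ (2 * m)) σ := by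
  set ρ : ℝ := (2 - w) / (2 + w) with hρ
  have hρ0 : 0 ≤ ρ := div_nonneg (by linarith) (by linarith)
  have hρe : (2 + w) * ρ = 2 - w := by
    rw [hρ]; field_simp
  have hs : Real.sqrt 2 ^ 2 = 2 := Real.sq_sqrt (by positivity)
  have hs0 := Real.sqrt_nonneg (2 : ℝ)
  set T : ℕ → ℝ := fun i => if i ≤ m then Real.sqrt 2 * ρ ^ i else
    if i = m + 1 then Real.sqrt 2 * ρ ^ m / 2 else 0 with hT
  have hTle : ∀ i ≤ m, T i = Real.sqrt 2 * ρ ^ i := fun i hi => by simp only [hT, if_pos hi]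
  have hTm1 : T (m + 1) = Real.sqrt 2 * ρ ^ m / 2 := by simp [hT]
  have hTm2 : T (m + 1 + 1) = 0 := by simp [hT]
  have key := certOK_of_T (m + 1) w hw T hTm2 ?_ ?_ ?_ ((1 - w) * ρ ^ (2 * m)) ?_
  · exact ⟨_, key.1, key.2⟩
  · rw [hTle 0 (Nat.zero_le _)]; simpa using hs
  · intro i hi
    rcases Nat.lt_or_ge i (m + 1) with h | h
    · rw [hTle i (by omega)]; positivity
    · have : i = m + 1 := by omega
      subst this
      rw [hTm1]; positivity
  · intro i hi
    rcases Nat.lt_or_ge i m with h | h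
    · rw [hTle i h.le, hTle (i + 1) h, pow_succ]
      apply le_of_eq
      linear_combination (Real.sqrt 2 * ρ ^ i) * hρe
    · rcases Nat.lt_or_ge i (m + 1) with h' | h'
      · have : i = m := by omega
        subst this
        rw [hTm1, hTle i le_rfl]
        have h1 : 0 ≤ Real.sqrt 2 * ρ ^ i := by positivity
        nlinarith
      · have : i = m + 1 := by omega
        subst this
        rw [hTm2, hTm1]
        have : 0 ≤ 2 - w := by linarith
        simp only [mul_zero]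
        positivity
  · rw [Finset.sum_range_succ, Finset.sum_range_succ]
    have h0 : ∑ i ∈ Finset.range m, ((T i - T (i + 1)) ^ 2 - w * (T i ^ 2 - T (i + 1) ^ 2) / 2)
        = 0 := by
      apply Finset.sum_eq_zero
      intro i hi
      have hi' := Finset.mem_range.1 hi
      rw [hTle i hi'.le, hTle (i + 1) hi', pow_succ ρ i]
      have h1 : (Real.sqrt 2 * ρ ^ i - Real.sqrt 2 * (ρ ^ i * ρ)) ^ 2 -
          w * ((Real.sqrt 2 * ρ ^ i) ^ 2 - (Real.sqrt 2 * (ρ ^ i * ρ)) ^ 2) / 2 =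
          (Real.sqrt 2 ^ 2 * (ρ ^ i) ^ 2) * (1 - ρ) * ((2 - w) - (2 + w) * ρ) / 2 := by
        ring
      rw [h1, hρe]
      simp
    rw [h0, hTm2, hTm1, hTle m le_rfl, zero_add]
    have h1 : (Real.sqrt 2 * ρ ^ m - Real.sqrt 2 * ρ ^ m / 2) ^ 2 -
        w * ((Real.sqrt 2 * ρ ^ m) ^ 2 - (Real.sqrt 2 * ρ ^ m / 2) ^ 2) / 2 +
        ((Real.sqrt 2 * ρ ^ m / 2 - 0) ^ 2 -
          w * ((Real.sqrt 2 * ρ ^ m / 2) ^ 2 - 0 ^ 2) / 2)
        = Real.sqrt 2 ^ 2 * ρ ^ (2 * m) * (1 / 2 - w / 2) := by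
      rw [pow_mul' ρ 2 m]
      ring
    rw [h1, hs]
    ring

end Pool.Agent.H3.D6
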