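import Mathlib
import Pool.Graph.R_seed8.Helper772.MV.ProdCoeff
import Pool.Graph.R_seed8.Helper772.MV.LP
import Pool.Graph.R_seed8.Helper772.MV.Annulus

/-!
# Linear combinations of coefficients
-/

set_option autoImplicit false

open MeasureTheory Metric Set Filter Topology
open scoped ENNReal Real

namespace Pool.Agent.H3.D6

open MeanVal

/-- as `MeanVal.ProdCoeff.pc_main`, with coefficients which do not depend on the function -/
theorem pc_uniform (m : ℕ) (ζ : Fin m → ℂ) (hζ : ∀ l, ‖ζ l‖ = 1) :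
    ∃ c : ℕ → ℂ, c 0 = 1 ∧ ‖c m‖ = 1 ∧ (∀ i, m < i → c i = 0) ∧
      ∀ f : ℂ → ℂ, DifferentiableOn ℂ f (ball 0 1) → ∀ n : ℕ,
      coeff (fun z => f z * ∏ l, (z - ζ l)) (n + m) =
        ∑ i ∈ Finset.range (m + 1), c i * coeff f (n + i) := by
  induction m with
  | zero =>
    refine ⟨fun i => if i = 0 then 1 else 0, by simp, by simp, ?_, ?_⟩
    · intro i hi; simp; omega
    · intro f _ n; simp
  | succ m ih =>
    obtain ⟨c, h0, hm, hz, hc⟩ := ih (fun l => ζ l.castSucc) (fun l => hζ _)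
    set a := ζ (Fin.last m) with ha
    have hna : ‖a‖ = 1 := hζ _
    refine ⟨fun i => c i - (if i = 0 then 0 else a * c (i - 1)), by simp [h0], ?_, ?_, ?_⟩
    · simp only [Nat.succ_ne_zero, if_false, Nat.add_sub_cancel, hz (m + 1) (Nat.lt_succ_self m),
        zero_sub, norm_neg, norm_mul, hna, hm, mul_one]
    · intro i hi
      have hi0 : i ≠ 0 := by omega
      simp only [hi0, if_false, hz i (by omega), hz (i - 1) (by omega), mul_zero, sub_zero]
    · intro f hf n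
      have e1 : (fun z => f z * ∏ l, (z - ζ l)) =
          fun z => (f z * ∏ l : Fin m, (z - ζ l.castSucc)) * (z - a) := by
        funext z
        rw [Fin.prod_univ_castSucc, mul_assoc]
      have hd : DifferentiableOn ℂ (fun z => f z * ∏ l : Fin m, (z - ζ l.castSucc)) (ball 0 1) := by
        refine hf.mul ?_
        fun_prop
      rw [e1, ← add_assoc, ProdCoeff.pc_step _ hd a (n + m), hc f hf n]
      have e2 : coeff (fun z => f z * ∏ l : Fin m, (z - ζ l.castSucc)) (n + m + 1) =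
          ∑ i ∈ Finset.range (m + 1), c i * coeff f (n + 1 + i) := by
        rw [← hc f hf (n + 1)]; congr 1; ring
      rw [e2]
      simp only [sub_mul]
      rw [Finset.sum_sub_distrib]
      congr 1
      · rw [Finset.sum_range_succ _ (m + 1), hz (m + 1) (Nat.lt_succ_self m)]
        simp
      · rw [Finset.sum_range_succ' _ (m + 1), Finset.mul_sum]
        simp only [Nat.succ_ne_zero, if_false, Nat.add_sub_cancel, if_true, zero_mul, add_zero]
        refine Finset.sum_congr rfl fun i _ => ?_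
        rw [mul_assoc]
        congr 3
        ring

theorem coeff_le_sup (h : ℂ → ℂ) (hh : DifferentiableOn ℂ h (ball 0 1)) (r M : ℝ) (hr : 0 < r)
    (hr1 : r < 1) (hM : ∀ z : ℂ, ‖z‖ = r → ‖h z‖ ≤ M) (N : ℕ) : ‖coeff h N‖ ≤ M / r ^ N := by
  have hd : DiffContOnCl ℂ h (ball 0 r) := by
    apply DifferentiableOn.diffContOnCl
    refine hh.mono ?_
    exact closure_ball_subset_closedBall.trans (closedBall_subset_ball hr1)
  have h1 := Complex.norm_iteratedDeriv_le_of_forall_mem_sphere_norm_le N (c := 0) hr hd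
    (C := M) (fun z hz => hM z (by simpa using hz))
  unfold coeff
  rw [norm_div, Complex.norm_natCast, div_le_iff₀ (by positivity)]
  refine h1.trans (le_of_eq ?_)
  ring

theorem pow_lower (n : ℕ) (hn : 2 ≤ n) (k N : ℕ) (hN : N ≤ n + k) :
    Real.exp (-2) * (1 / 2) ^ k ≤ (1 - 1 / (n:ℝ)) ^ N := by
  have hn2 : (2:ℝ) ≤ n := by exact_mod_cast hn
  have hn0 : (0:ℝ) < n := by linarith
  have hlo : (1:ℝ) / 2 ≤ 1 - 1 / (n:ℝ) := by
    rw [le_sub_iff_add_le, ← le_sub_iff_add_le', div_le_iff₀ hn0]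
    linarith
  have hx : 0 < 1 - 1/(n:ℝ) := by linarith
  have hlog : Real.exp (-2) ≤ (1 - 1/(n:ℝ)) ^ n := by
    have h2 := Real.one_sub_inv_le_log_of_pos hx
    have h3 : (1 - 1/(n:ℝ))⁻¹ = (n:ℝ)/((n:ℝ)-1) := by
      have : (n:ℝ) - 1 ≠ 0 := by linarith
      have h4 : 1 - 1/(n:ℝ) = ((n:ℝ)-1)/n := by field_simp
      rw [h4, inv_div]
    rw [h3] at h2
    have h4 : -2 ≤ (n:ℝ) * Real.log (1 - 1/(n:ℝ)) := by
      have h5 : -2 / (n:ℝ) ≤ 1 - (n:ℝ)/((n:ℝ)-1) := by
        have h6 : (0:ℝ) < (n:ℝ) - 1 := by linarith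
        rw [div_le_iff₀ hn0]
        have h7 : (1 - (n:ℝ)/((n:ℝ)-1)) * n = -(n:ℝ)/((n:ℝ)-1) := by
          field_simp
          ring
        rw [h7, le_div_iff₀ h6]
        linarith
      have h8 := h5.trans h2
      rw [div_le_iff₀ hn0] at h8
      linarith
    rw [← Real.exp_log hx, ← Real.exp_nat_mul]
    exact Real.exp_le_exp.2 h4
  have hx1 : 1 - 1/(n:ℝ) ≤ 1 := by
    have : 0 < 1/(n:ℝ) := by positivity
    linarith
  calc Real.exp (-2) * (1/2) ^ k ≤ (1 - 1/(n:ℝ)) ^ n * (1 - 1/(n:ℝ)) ^ k := by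
        apply mul_le_mul hlog (pow_le_pow_left₀ (by norm_num) hlo k) (by positivity)
        exact pow_nonneg (by linarith) _
    _ = (1 - 1/(n:ℝ)) ^ (n + k) := by rw [pow_add]
    _ ≤ (1 - 1/(n:ℝ)) ^ N := pow_le_pow_of_le_one (by linarith) hx1 hN

theorem coeff_combo (m k : ℕ) :
    ∃ C : ℝ, 0 ≤ C ∧ ∀ (a : ℂ → ℂ), DifferentiableOn ℂ a (ball 0 1) → ∀ n : ℕ, 4 ≤ n →
      ∀ ζ : Fin m → ℂ, (∀ l, ‖ζ l‖ = 1) → ∀ X Y : ℝ, 0 ≤ X → 0 ≤ Y →
      (∫⁻ z in {z : ℂ | 1 - 2 / (n:ℝ) < ‖z‖ ∧ ‖z‖ < 1 - 1 / (n:ℝ)},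
        ENNReal.ofReal (‖deriv a z‖ * ∏ l, ‖z - ζ l‖) ≤ ENNReal.ofReal X) →
      (∀ z : ℂ, ‖z‖ = 1 - 1 / (n:ℝ) → ‖a z‖ * ∏ l, ‖z - ζ l‖ ≤ Y) →
      ∃ c : ℕ → ℂ, c 0 = 1 ∧ 1 ≤ ‖c m‖ ∧ ∀ j ≤ k,
        ‖∑ i ∈ Finset.range (m + 1), c i * coeff a (n + j + i)‖ ≤ C * (X + Y / n) := by
  obtain ⟨C₄, hC₄, hAnn⟩ := Annulus.coeff_le_annulus (k + m)
  set C₆ : ℝ := Real.exp 2 * 2 ^ (k + m) with hC₆
  refine ⟨C₄ * (1 + k + m) + k * C₆, by positivity, ?_⟩
  intro a ha n hn ζ hζ X Y hX hY h1 h2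
  have hn4 : (4:ℝ) ≤ n := by exact_mod_cast hn
  have hn0 : (0:ℝ) < n := by linarith
  have hnc : (n:ℂ) ≠ 0 := by
    have : n ≠ 0 := by omega
    exact_mod_cast this
  have hinv : 0 < 1 / (n:ℝ) := by positivity
  have hinv1 : 1 / (n:ℝ) < 1 := by rw [div_lt_one hn0]; linarith
  obtain ⟨c, hc0, hcm, -, hc⟩ := pc_uniform m ζ hζ
  have hprod : ∀ z : ℂ, ‖∏ l, (z - ζ l)‖ = ∏ l, ‖z - ζ l‖ := fun z => norm_prod _ _
  have hda : DifferentiableOn ℂ (deriv a) (ball 0 1) := ha.deriv isOpen_ball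
  have hPd : DifferentiableOn ℂ (fun z : ℂ => ∏ l, (z - ζ l)) (ball 0 1) := by fun_prop
  have hu : DifferentiableOn ℂ (fun z => deriv a z * ∏ l, (z - ζ l)) (ball 0 1) := hda.mul hPd
  have hv : DifferentiableOn ℂ (fun z => a z * ∏ l, (z - ζ l)) (ball 0 1) := ha.mul hPd
  obtain ⟨H, hH⟩ := hu.isExactOn_ball
  have hHd : DifferentiableOn ℂ H (ball 0 1) :=
    fun z hz => (hH z hz).differentiableAt.differentiableWithinAt
  refine ⟨fun i => c i * (((n:ℂ) + i) / n), ?_, ?_, ?_⟩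
  · simp only [Nat.cast_zero, add_zero, hc0]
    rw [div_self hnc, mul_one]
  · rw [norm_mul, hcm, one_mul, norm_div, Complex.norm_natCast]
    have : ((n:ℂ) + (m:ℂ)) = ((n + m : ℕ) : ℂ) := by push_cast; ring
    rw [this, Complex.norm_natCast, le_div_iff₀ hn0]
    push_cast
    have : (0:ℝ) ≤ m := Nat.cast_nonneg m
    linarith
  · intro j hj
    -- the algebraic identity
    have hid : ∑ i ∈ Finset.range (m + 1), (c i * (((n:ℂ) + i) / n)) * coeff a (n + j + i) =
        (1 / (n:ℂ)) * coeff (fun z => deriv a z * ∏ l, (z - ζ l)) (n + j - 1 + m) -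
        ((j:ℂ) / n) * coeff (fun z => a z * ∏ l, (z - ζ l)) (n + j + m) := by
      rw [hc _ ha (n + j), hc _ hda (n + j - 1), Finset.mul_sum, Finset.mul_sum,
        ← Finset.sum_sub_distrib]
      refine Finset.sum_congr rfl fun i _ => ?_
      rw [LP.coeff_deriv_10059]
      have e1 : n + j - 1 + i + 1 = n + j + i := by omega
      have e2 : (((n + j - 1 + i : ℕ) : ℂ) + 1) = (n:ℂ) + j + i := by
        rw [← Nat.cast_succ, Nat.succ_eq_add_one, e1]
        push_cast; ring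
      rw [e1, e2]
      field_simp
      ring
    rw [hid]
    -- first term
    have hN1 : n + j - 1 + m + 1 = n + j + m := by omega
    have hcoefH : coeff (fun z => deriv a z * ∏ l, (z - ζ l)) (n + j - 1 + m) =
        ((n + j + m : ℕ) : ℂ) * coeff H (n + j + m) := by
      have e1 := LP.coeff_deriv_10059 H (n + j - 1 + m)
      have e2 : coeff (deriv H) (n + j - 1 + m) =
          coeff (fun z => deriv a z * ∏ l, (z - ζ l)) (n + j - 1 + m) := by
        have e3 : deriv H =ᶠ[𝓝 0] fun z => deriv a z * ∏ l, (z - ζ l) := by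
          filter_upwards [isOpen_ball.mem_nhds (mem_ball_self (x := (0:ℂ)) one_pos)] with z hz
          exact (hH z hz).deriv
        unfold coeff
        rw [e3.iteratedDeriv_eq]
      rw [← e2, e1, hN1]
      congr 1
      rw [← Nat.cast_succ, Nat.succ_eq_add_one, hN1]
    have hA1 := hAnn H hHd n (n + j + m) hn (by omega) (by omega)
    have hA2 : ∫⁻ z in {z : ℂ | 1 - 2 / (n:ℝ) < ‖z‖ ∧ ‖z‖ < 1 - 1 / (n:ℝ)},
        ENNReal.ofReal ‖deriv H z‖ ≤ ENNReal.ofReal X := by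
      refine le_trans (le_of_eq ?_) h1
      have hAm : MeasurableSet {z : ℂ | 1 - 2 / (n:ℝ) < ‖z‖ ∧ ‖z‖ < 1 - 1 / (n:ℝ)} := by
        apply MeasurableSet.inter
        · exact measurableSet_lt measurable_const measurable_norm
        · exact measurableSet_lt measurable_norm measurable_const
      refine setLIntegral_congr_fun hAm ?_
      intro z hz
      have hz1 : z ∈ ball (0:ℂ) 1 := by
        rw [mem_ball_zero_iff]; exact hz.2.trans (by linarith)
      simp only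
      rw [(hH z hz1).deriv, norm_mul, hprod]
    have hA3 : ‖coeff H (n + j + m)‖ ≤ C₄ * X := by
      have h3 : ENNReal.ofReal ‖coeff H (n + j + m)‖ ≤ ENNReal.ofReal (C₄ * X) := by
        refine hA1.trans ?_
        rw [ENNReal.ofReal_mul hC₄]
        gcongr
      exact (ENNReal.ofReal_le_ofReal_iff (by positivity)).1 h3
    have hB : ‖coeff (fun z => a z * ∏ l, (z - ζ l)) (n + j + m)‖ ≤ C₆ * Y := by
      have h3 := coeff_le_sup _ hv (1 - 1 / (n:ℝ)) Y (by linarith) (by linarith)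
        (fun z hz => by rw [norm_mul, hprod]; exact h2 z hz) (n + j + m)
      have h4 := pow_lower n (by omega) (k + m) (n + j + m) (by omega)
      refine h3.trans ?_
      have h5 : 0 < Real.exp (-2) * (1 / 2) ^ (k + m) := by positivity
      rw [div_le_iff₀ (h5.trans_le h4)]
      have h6 : C₆ * (Real.exp (-2) * (1 / 2) ^ (k + m)) = 1 := by
        rw [hC₆, Real.exp_neg, one_div, inv_pow]
        have := Real.exp_pos 2
        field_simp
      calc Y = (C₆ * (Real.exp (-2) * (1 / 2) ^ (k + m))) * Y := by rw [h6, one_mul]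
        _ = C₆ * Y * (Real.exp (-2) * (1 / 2) ^ (k + m)) := by ring
        _ ≤ _ := mul_le_mul_of_nonneg_left h4 (by positivity)
    have hj' : (j:ℝ) ≤ k := by exact_mod_cast hj
    have hj0 : (0:ℝ) ≤ j := Nat.cast_nonneg j
    have hm0 : (0:ℝ) ≤ m := Nat.cast_nonneg m
    refine (norm_sub_le _ _).trans ?_
    rw [norm_mul, norm_mul, hcoefH, norm_mul, norm_div, norm_div, norm_one,
      Complex.norm_natCast, Complex.norm_natCast, Complex.norm_natCast]
    have e1 : 1 / (n:ℝ) * (((n + j + m : ℕ) : ℝ) * ‖coeff H (n + j + m)‖) ≤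
        C₄ * (1 + k + m) * X := by
      have e2 : 1 / (n:ℝ) * ((n + j + m : ℕ) : ℝ) ≤ 1 + k + m := by
        rw [one_div, inv_mul_le_iff₀ hn0]
        push_cast
        nlinarith
      calc 1 / (n:ℝ) * (((n + j + m : ℕ) : ℝ) * ‖coeff H (n + j + m)‖) =
          (1 / (n:ℝ) * ((n + j + m : ℕ) : ℝ)) * ‖coeff H (n + j + m)‖ := by ring
        _ ≤ (1 + k + m) * (C₄ * X) := mul_le_mul e2 hA3 (norm_nonneg _) (by positivity)
        _ = _ := by ring
    have e3 : (j:ℝ) / n * ‖coeff (fun z => a z * ∏ l, (z - ζ l)) (n + j + m)‖ ≤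
        k * C₆ * (Y / n) := by
      calc (j:ℝ) / n * ‖coeff (fun z => a z * ∏ l, (z - ζ l)) (n + j + m)‖
          ≤ (k / n) * (C₆ * Y) := by
            apply mul_le_mul _ hB (norm_nonneg _) (by positivity)
            gcongr
        _ = _ := by ring
    have e4 : 0 ≤ Y / n := by positivity
    have e5 : 0 ≤ C₄ * (1 + k + m) * (Y / n) := by positivity
    have e6 : 0 ≤ k * C₆ * X := by positivity
    nlinarith

end Pool.Agent.H3.D6
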