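import Mathlib
import Pool.Graph.R_seed8.Helper772.MV.Upper
import Pool.Agent.H3.D6.CertW

/-!
# A weighted bound for `f` times a polynomial with `m` zeros

The proof is the one of `MeanVal.weighted_sup_bound`
(`Pool.Graph.R_seed8.Helper772.MV.Upper`) with the weight `sqrt (1 - |z|)` replaced by
`(1 - |z|) ^ e`.
-/

set_option autoImplicit false

open MeasureTheory Metric Set
open scoped ENNReal Real

namespace Pool.Agent.H3.D6

open MeanVal hiding CertOK weighted_sup_bound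

set_option maxHeartbeats 4000000 in
theorem weighted_sup_bound (m : ℕ) (e : ℝ) (he0 : 0 ≤ e) (σ : Fin (m + 1) → ℝ) (Vs : ℝ)
    (hσ : ∀ i, 0 ≤ σ i ∧ σ i ≤ 2) (hcert : CertOK (m + 1) e Vs σ)
    (f : ℂ → ℂ) (hf : AreaBound 1 f) (r₁ C₁ : ℝ) (hr₁ : 0 < r₁) (hr₁' : r₁ < 1) (hC₁ : 0 ≤ C₁)
    (hL : ∀ z : ℂ, r₁ ≤ ‖z‖ → ‖z‖ < 1 → f z ≠ 0 ∧ ‖deriv f z‖ * (1 - ‖z‖) ≤ C₁ * ‖f z‖)
    (ε : ℝ) (hε : 0 < ε) :
    ∃ (C : ℝ) (n₀ : ℕ), 0 ≤ C ∧ 2 ≤ n₀ ∧ ∀ n : ℕ, n₀ ≤ n →
      ∃ ζ : Fin m → ℂ, (∀ l, ‖ζ l‖ = 1) ∧ ∀ z : ℂ, r₁ ≤ ‖z‖ → ‖z‖ ≤ 1 - 1 / (n:ℝ) →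
        (‖f z‖ * ∏ l, ‖z - ζ l‖) * (1 - ‖z‖) ^ e ≤ C * (1 + (n:ℝ) ^ (Vs + ε)) := by
  obtain ⟨C₂, hC₂, hlog⟩ := Logs.logf_bound r₁ C₁ hr₁ hr₁' hC₁ f hf.1 hL
  have hE : ∀ a b : ℝ, 0 < a → a ≤ b →
      ∫⁻ z in {z : ℂ | z ∈ ball (0:ℂ) 1 ∧ a < ‖f z‖ ∧ ‖f z‖ < b},
        ENNReal.ofReal ((‖deriv f z‖ / ‖f z‖) ^ 2)
        ≤ ENNReal.ofReal (π * 1 * (1 + 2 * Real.log (b / a))) :=
    fun a b ha hab => Energy.energy_le one_pos hf ha hab
  have hpi := Real.pi_pos
  set A : ℝ := 4 * ((m:ℝ) + 1) ^ 2 * (C₂ + C₁) / 2 with hA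
  have hA0 : 0 ≤ A := by positivity
  set η : ℝ := min (1 / 2) (ε / (2 * (A + 1))) with hη
  have hη0 : 0 < η := lt_min (by norm_num) (by positivity)
  have hη1 : η ≤ 1 / 2 := min_le_left _ _
  have hηA : η * A ≤ ε / 2 := by
    have h1 : η ≤ ε / (2 * (A + 1)) := min_le_right _ _
    calc η * A ≤ ε / (2 * (A + 1)) * A := mul_le_mul_of_nonneg_right h1 hA0
      _ = ε / 2 * (A / (A + 1)) := by field_simp
      _ ≤ ε / 2 * 1 := by
          apply mul_le_mul_of_nonneg_left _ (by positivity)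
          rw [div_le_one (by positivity)]; linarith
      _ = ε / 2 := mul_one _
  set th : ℝ := π / 2 * (1 - η) with hth_def
  have hth : 0 < th := by
    apply mul_pos (by positivity); linarith
  have hth2 : th < π / 2 := by
    rw [hth_def]; nlinarith
  have hκ : 2 * th / π = 1 - η := by
    rw [hth_def]; field_simp
  obtain ⟨x₀, C₀, hx₀, hx₀r, hx₀c, hx₀1, hC₀, hray⟩ :=
    Ray.ray_average th r₁ C₁ hth hth2 hr₁.le hr₁' hC₁ f hf.1 hL
  obtain ⟨Cc, hCc, hcross⟩ := Cross.cross_integral th hth hth2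
  obtain ⟨CS, hCS, hstar⟩ := Star.star_ineq th 1 x₀ C₀ Cc one_pos hth hth2 hx₀ hx₀1.le hC₀ hCc f hf.1 hE
    (fun ζ hζ a ha => sector_subset_ball th x₀ hx₀c hth2 hth ζ hζ a ha) hray
    (fun ζ ζ' a a' h1 h2 h3 h4 h5 h6 => hcross ζ ζ' a a' x₀ h1 h2 h3 h4 h5 h6 hx₀1.le) (m + 1)
  obtain ⟨Cch, hCch, hchain⟩ := Chain.chain_ineq (m + 1)
  obtain ⟨C₃, hC₃⟩ := hcert
  set r₂ : ℝ := max r₁ (1 - x₀ / 2) with hr₂
  have hr₂1 : r₂ < 1 := max_lt hr₁' (by linarith)
  have hr₂0 : 0 < r₂ := lt_max_of_lt_left hr₁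
  -- sup on the inner disc
  obtain ⟨M₂, hM₂⟩ : ∃ M₂ : ℝ, ∀ z : ℂ, ‖z‖ ≤ r₂ → ‖f z‖ ≤ M₂ := by
    have hc : IsCompact (closedBall (0:ℂ) r₂) := isCompact_closedBall _ _
    have hcont : ContinuousOn (fun z => ‖f z‖) (closedBall (0:ℂ) r₂) :=
      (hf.1.continuousOn.mono (closedBall_subset_ball hr₂1)).norm
    obtain ⟨M, hM⟩ := hc.bddAbove_image hcont
    exact ⟨M, fun z hz => hM ⟨z, by simpa using hz, rfl⟩⟩
  have hM₂0 : 0 ≤ M₂ := (norm_nonneg _).trans (hM₂ 0 (by simpa using hr₂0.le))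
  obtain ⟨n₁, hn₁⟩ := exists_nat_gt (1 / (1 - r₂))
  set Cfin : ℝ := M₂ * 2 ^ m + Real.exp (Cch + 2 * m * Real.log 2) +
    Real.exp (ε / 2 + Cch + |CS / 2| + |C₃| + m * Real.log 2) with hCfin
  refine ⟨Cfin, max n₁ 2, by positivity, le_max_right _ _, ?_⟩
  intro n hn
  have hn1 : n₁ ≤ n := (le_max_left _ _).trans hn
  have hn2 : 2 ≤ n := (le_max_right _ _).trans hn
  have hnR : (2:ℝ) ≤ n := by exact_mod_cast hn2
  have hnpos : (0:ℝ) < n := by linarith
  have hninv : 1 / (n:ℝ) < 1 - r₂ := by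
    have h1 : 1 / (1 - r₂) < n := hn₁.trans_le (by exact_mod_cast hn1)
    rw [div_lt_iff₀ (by linarith)] at h1
    rw [div_lt_iff₀ hnpos]; linarith
  set K : Set ℂ := {z : ℂ | r₂ ≤ ‖z‖ ∧ ‖z‖ ≤ 1 - 1 / (n:ℝ)} with hK
  have hKc : IsCompact K := by
    have h1 : IsClosed K := (isClosed_le continuous_const continuous_norm).inter
      (isClosed_le continuous_norm continuous_const)
    refine (isCompact_closedBall (0:ℂ) 1).of_isClosed_subset h1 ?_
    intro z hz
    have := hz.2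
    have : 0 < 1 / (n:ℝ) := by positivity
    simp only [mem_closedBall, dist_zero_right]; linarith
  have hKne : K.Nonempty := by
    refine ⟨((1 - 1 / (n:ℝ) : ℝ) : ℂ), ?_⟩
    have h2 : ‖((1 - 1 / (n:ℝ) : ℝ) : ℂ)‖ = 1 - 1 / (n:ℝ) := by
      rw [Complex.norm_real, Real.norm_of_nonneg (by linarith)]
    refine ⟨?_, ?_⟩
    · rw [h2]; linarith
    · rw [h2]
  have hKlt : ∀ z ∈ K, ‖z‖ < 1 := by
    intro z hz
    have := hz.2
    have : 0 < 1 / (n:ℝ) := by positivity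
    linarith
  have hKr₁ : ∀ z ∈ K, r₁ ≤ ‖z‖ := fun z hz => (le_max_left _ _).trans hz.1
  have hKpos : ∀ z ∈ K, 0 < ‖z‖ := fun z hz => hr₁.trans_le (hKr₁ z hz)
  set F : ℂ → ℝ := fun z => ‖f z‖ * (1 - ‖z‖) ^ e with hF
  have hFc : ContinuousOn F K := by
    apply ContinuousOn.mul
    · exact (hf.1.continuousOn.mono (fun z hz => by simpa using hKlt z hz)).norm
    · intro z hz
      refine ContinuousAt.continuousWithinAt ?_
      refine ContinuousAt.rpow_const (by fun_prop) (Or.inr he0)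
  obtain ⟨z, hzK, hgreedy⟩ := Greedy.greedy_points K hKc hKne
    (fun z hz => norm_pos_iff.1 (hKpos z hz)) F hFc
  have hFpos : ∀ w ∈ K, 0 < F w := by
    intro w hw
    apply mul_pos (norm_pos_iff.2 (hL w (hKr₁ w hw) (hKlt w hw)).1)
    exact Real.rpow_pos_of_pos (by linarith [hKlt w hw]) _
  have hζn : ∀ l, ‖z l / (‖z l‖ : ℂ)‖ = 1 := by
    intro l
    rw [norm_div, Complex.norm_real, norm_norm, div_self (hKpos _ (hzK l)).ne']
  have hdpos : ∀ w ∈ K, ∀ l, 0 < ‖w - z l / (‖z l‖ : ℂ)‖ := by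
    intro w hw l
    rw [norm_pos_iff, sub_ne_zero]
    intro h
    have := hKlt w hw
    rw [h, hζn] at this
    linarith
  have hd2 : ∀ w ∈ K, ∀ l, ‖w - z l / (‖z l‖ : ℂ)‖ ≤ 2 := by
    intro w hw l
    refine (norm_sub_le _ _).trans ?_
    rw [hζn]; linarith [hKlt w hw]
  -- logs
  set lg : ℕ → ℂ → ℝ := fun i w => Real.log (F w) +
    ∑ l ∈ Finset.range i, Real.log ‖w - z l / (‖z l‖ : ℂ)‖ with hlg
  have hlgeq : ∀ i, ∀ w ∈ K, Real.log (F w * ∏ l ∈ Finset.range i, ‖w - z l / (‖z l‖ : ℂ)‖)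
      = lg i w := by
    intro i w hw
    rw [Real.log_mul (hFpos w hw).ne' (Finset.prod_pos fun l _ => hdpos w hw l).ne',
      Real.log_prod (fun l _ => (hdpos w hw l).ne')]
  have hlggr : ∀ i, ∀ w ∈ K, lg i w ≤ lg i (z i) := by
    intro i w hw
    rw [← hlgeq i w hw, ← hlgeq i _ (hzK i)]
    apply Real.log_le_log _ (hgreedy i w hw)
    exact mul_pos (hFpos w hw) (Finset.prod_pos fun l _ => hdpos w hw l)
  set P : ℝ := F (z m) * ∏ l ∈ Finset.range m, ‖z m - z l / (‖z l‖ : ℂ)‖ with hP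
  have hPpos : 0 < P := mul_pos (hFpos _ (hzK m)) (Finset.prod_pos fun l _ => hdpos _ (hzK m) l)
  have hPlog : Real.log P = lg m (z m) := hlgeq m _ (hzK m)
  set V : ℝ := lg m (z m) - m * Real.log 2 with hV
  have hlog2 : 0 < Real.log 2 := Real.log_pos (by norm_num)
  -- matrices
  set Am : Fin (m + 1) → Fin (m + 1) → ℝ := fun i k => max (max (1 - ‖z i‖) (1 - ‖z k‖))
    ‖z i / (‖z i‖ : ℂ) - z k / (‖z k‖ : ℂ)‖ with hAm
  set s : Fin (m + 1) → Fin (m + 1) → ℝ := fun i k => Real.log (1 / Am i k) with hs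
  set b : Fin (m + 1) → Fin (m + 1) → ℝ := fun i k => -Real.log ‖z i - z k / (‖z k‖ : ℂ)‖ with hb
  have hx1 : ∀ i, 0 < 1 - ‖z i‖ := fun i => by linarith [hKlt _ (hzK i)]
  have hAmpos : ∀ i k, 0 < Am i k := fun i k => lt_max_of_lt_left (lt_max_of_lt_left (hx1 i))
  have hAm2 : ∀ i k, Am i k ≤ 2 := by
    intro i k
    refine max_le (max_le ?_ ?_) ?_
    · linarith [norm_nonneg (z i)]
    · linarith [norm_nonneg (z k)]
    · refine (norm_sub_le _ _).trans ?_
      rw [hζn, hζn]; norm_num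
  have hAmsymm : ∀ i k, Am i k = Am k i := by
    intro i k
    simp only [hAm]
    rw [max_comm (1 - ‖z i‖), norm_sub_rev]
  have hsymm : ∀ i k, s i k = s k i := by
    intro i k; simp only [hs]; rw [hAmsymm]
  have hslog : ∀ i k, s i k = - Real.log (Am i k) := by
    intro i k; simp only [hs]; rw [one_div, Real.log_inv]
  have hslow : ∀ i k, - Real.log 2 ≤ s i k := by
    intro i k
    rw [hslog]
    exact neg_le_neg (Real.log_le_log (hAmpos i k) (hAm2 i k))
  have hzζ : ∀ i : ℕ, ‖z i - z i / (‖z i‖ : ℂ)‖ = 1 - ‖z i‖ := by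
    intro i
    have h0 : (‖z i‖ : ℂ) ≠ 0 := by
      exact_mod_cast (hKpos _ (hzK i)).ne'
    have h1 : z i - z i / (‖z i‖ : ℂ) = z i / (‖z i‖ : ℂ) * ((‖z i‖ : ℂ) - 1) := by
      field_simp
    rw [h1, norm_mul, hζn, one_mul]
    rw [show ((‖z i‖ : ℂ) - 1) = ((‖z i‖ - 1 : ℝ) : ℂ) by push_cast; ring, Complex.norm_real,
      Real.norm_of_nonpos (by linarith [hx1 i])]
    ring
  have hsb : ∀ i k, i ≠ k → s i k - Real.log 2 ≤ b i k := by
    intro i k _
    rw [hslog]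
    simp only [hb]
    have h1 : ‖z i - z k / (‖z k‖ : ℂ)‖ ≤ 2 * Am i k := by
      have h2 : ‖z i - z k / (‖z k‖ : ℂ)‖ ≤ ‖z i - z i / (‖z i‖ : ℂ)‖ +
          ‖z i / (‖z i‖ : ℂ) - z k / (‖z k‖ : ℂ)‖ := norm_sub_le_norm_sub_add_norm_sub _ _ _
      have h3 : 1 - ‖z i‖ ≤ Am i k := (le_max_left _ _).trans (le_max_left _ _)
      have h4 : ‖z i / (‖z i‖ : ℂ) - z k / (‖z k‖ : ℂ)‖ ≤ Am i k := le_max_right _ _
      rw [hzζ] at h2
      linarith
    have h5 := Real.log_le_log (hdpos _ (hzK i) k) h1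
    rw [Real.log_mul (by norm_num) (hAmpos i k).ne'] at h5
    linarith
  have hsult : ∀ i k l, i ≠ k → i ≠ l → k ≠ l → min (s i k) (s i l) - Real.log 2 ≤ s k l := by
    intro i k l _ _ _
    have h1 : Am k l ≤ 2 * max (Am i k) (Am i l) := by
      refine max_le (max_le ?_ ?_) ?_
      · have : 1 - ‖z k‖ ≤ Am i k := (le_max_right _ _).trans (le_max_left _ _)
        have h2 := le_max_left (Am i k) (Am i l)
        have := hAmpos i k
        linarith
      · have : 1 - ‖z l‖ ≤ Am i l := (le_max_right _ _).trans (le_max_left _ _)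
        have h2 := le_max_right (Am i k) (Am i l)
        have := hAmpos i l
        linarith
      · have h2 : ‖z k / (‖z k‖ : ℂ) - z l / (‖z l‖ : ℂ)‖ ≤
          ‖z k / (‖z k‖ : ℂ) - z i / (‖z i‖ : ℂ)‖ + ‖z i / (‖z i‖ : ℂ) - z l / (‖z l‖ : ℂ)‖ :=
          norm_sub_le_norm_sub_add_norm_sub _ _ _
        rw [norm_sub_rev (z k / (‖z k‖ : ℂ)) (z i / (‖z i‖ : ℂ))] at h2
        have h3 : ‖z i / (‖z i‖ : ℂ) - z k / (‖z k‖ : ℂ)‖ ≤ Am i k := le_max_right _ _
        have h4 : ‖z i / (‖z i‖ : ℂ) - z l / (‖z l‖ : ℂ)‖ ≤ Am i l := le_max_right _ _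
        have h5 := le_max_left (Am i k) (Am i l)
        have h6 := le_max_right (Am i k) (Am i l)
        linarith
    have hmx : 0 < max (Am i k) (Am i l) := lt_max_of_lt_left (hAmpos i k)
    have h2 := Real.log_le_log (hAmpos k l) h1
    rw [Real.log_mul (by norm_num) hmx.ne'] at h2
    rw [hslog k l, hslog i k, hslog i l]
    rcases le_total (Am i k) (Am i l) with h | h
    · rw [max_eq_right h] at h2
      have := min_le_right (-Real.log (Am i k)) (-Real.log (Am i l))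
      linarith
    · rw [max_eq_left h] at h2
      have := min_le_left (-Real.log (Am i k)) (-Real.log (Am i l))
      linarith
  -- sums over filters
  have hfilt : ∀ (i : Fin (m + 1)) (g : ℕ → ℝ),
      ∑ k ∈ Finset.univ.filter (fun k : Fin (m + 1) => k < i), g k =
        ∑ l ∈ Finset.range (i:ℕ), g l := by
    intro i g
    refine Finset.sum_bij (fun k _ => (k:ℕ)) ?_ ?_ ?_ ?_
    · intro k hk; simpa using (Finset.mem_filter.1 hk).2
    · intro k _ k' _ h; exact Fin.ext h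
    · intro l hl
      have hl' := Finset.mem_range.1 hl
      refine ⟨⟨l, by omega⟩, ?_, rfl⟩
      simp only [Finset.mem_filter, Finset.mem_univ, true_and]
      exact hl'
    · intro k _; rfl
  set E : Fin (m + 1) → ℝ := fun i => Real.log (F (z i)) with hEdef
  have hElg : ∀ (i l : Fin (m + 1)),
      E l - ∑ k ∈ Finset.univ.filter (fun k => k < i), b l k = lg i (z l) := by
    intro i l
    have := hfilt i (fun k => -Real.log ‖z l - z k / (‖z k‖ : ℂ)‖)
    simp only [hb, hEdef, hlg]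
    rw [this, Finset.sum_neg_distrib]
    ring
  have hmain := hchain E b s V hsymm hsb hsult
    (fun i l _ => by rw [hElg, hElg]; exact hlggr i _ (hzK l))
    (fun i => by
      rw [hElg]
      have h1 := hlggr i _ (hzK m)
      have h2 : lg m (z m) = lg i (z m) +
          ∑ l ∈ Finset.Ico (i:ℕ) m, Real.log ‖z m - z l / (‖z l‖ : ℂ)‖ := by
        simp only [hlg]
        rw [← Finset.sum_range_add_sum_Ico _ (show (i:ℕ) ≤ m by omega)]
        ring
      have h3 : ∑ l ∈ Finset.Ico (i:ℕ) m, Real.log ‖z m - z l / (‖z l‖ : ℂ)‖ ≤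
          m * Real.log 2 := by
        have h4 : ∑ l ∈ Finset.Ico (i:ℕ) m, Real.log ‖z m - z l / (‖z l‖ : ℂ)‖ ≤
            ∑ l ∈ Finset.Ico (i:ℕ) m, Real.log 2 := by
          apply Finset.sum_le_sum
          intro l _
          exact Real.log_le_log (hdpos _ (hzK m) l) (hd2 _ (hzK m) l)
        refine h4.trans ?_
        rw [Finset.sum_const, Nat.card_Ico, nsmul_eq_mul]
        apply mul_le_mul_of_nonneg_right _ hlog2.le
        exact_mod_cast Nat.sub_le _ _
      simp only [hV]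
      linarith)
  -- u, tau
  set u : Fin (m + 1) → ℝ := fun i => Real.log ‖f (z i)‖ with hu
  set τ : Fin (m + 1) → ℝ := fun i => s i i with hτ
  have hτeq : ∀ i, τ i = - Real.log (1 - ‖z i‖) := by
    intro i
    simp only [hτ]
    rw [hslog]
    simp only [hAm]
    rw [max_self, sub_self, norm_zero, max_eq_left (hx1 i).le]
  have hEu : ∀ i, E i = u i - e * τ i := by
    intro i
    rw [hτeq]
    simp only [hEdef, hF, hu]
    rw [Real.log_mul (norm_pos_iff.2 (hL _ (hKr₁ _ (hzK i)) (hKlt _ (hzK i))).1).ne'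
      (Real.rpow_pos_of_pos (hx1 i) _).ne', Real.log_rpow (hx1 i)]
    ring
  have hτ0 : ∀ i, 0 ≤ τ i := by
    intro i
    rw [hτeq]
    have := Real.log_nonpos (hx1 i).le (by linarith [norm_nonneg (z i)])
    linarith
  have hτt : ∀ i, τ i ≤ Real.log n := by
    intro i
    rw [hτeq]
    have h1 : 1 / (n:ℝ) ≤ 1 - ‖z i‖ := by linarith [(hzK i).2]
    have h2 := Real.log_le_log (by positivity) h1
    rw [one_div, Real.log_inv] at h2
    linarith
  have hsτ : ∀ i k, s i k ≤ τ i := by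
    intro i k
    rw [hτeq, hslog]
    exact neg_le_neg (Real.log_le_log (hx1 i) ((le_max_left _ _).trans (le_max_left _ _)))
  have hlogn : 0 ≤ Real.log n := Real.log_nonneg (by linarith)
  have hub : ∀ i, u i ≤ C₂ + C₁ * Real.log n := by
    intro i
    have h1 := hlog (z i) (hKr₁ _ (hzK i)) (hKlt _ (hzK i))
    have h2 := (le_abs_self _).trans h1
    have h3 := hτt i
    rw [hτeq] at h3
    rw [one_div, Real.log_inv] at h2
    have := mul_le_mul_of_nonneg_left h3 hC₁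
    simp only [hu]
    linarith
  have hmain' : ∀ i, V + ∑ k ∈ Finset.univ.erase i, s i k - Cch ≤ u i - e * τ i := by
    intro i
    rw [← hEu]
    exact hmain i
  -- bound for V
  have hVb : Real.log P ≤ Cch + 2 * m * Real.log 2 ∨
      Real.log P ≤ (Vs + ε / 2) * Real.log n + (ε / 2 + Cch + |CS / 2| + |C₃| + m * Real.log 2) := by
    by_cases hcase : ∃ i, u i < 0
    · left
      obtain ⟨i, hi⟩ := hcase
      have h1 := hmain' i
      have h2 : -(m * Real.log 2) ≤ ∑ k ∈ Finset.univ.erase i, s i k := by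
        have h3 : ∑ k ∈ Finset.univ.erase i, (-Real.log 2) ≤ ∑ k ∈ Finset.univ.erase i, s i k :=
          Finset.sum_le_sum (fun k _ => hslow i k)
        rw [Finset.sum_const, Finset.card_erase_of_mem (Finset.mem_univ _), Finset.card_univ,
          Fintype.card_fin, nsmul_eq_mul] at h3
        simp only [Nat.add_sub_cancel] at h3
        linarith
      have h4 := mul_nonneg he0 (hτ0 i)
      rw [hPlog]
      simp only [hV] at h1
      linarith
    · right
      push Not at hcase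
      set g := Tuple.sort u with hg
      have hmono : Monotone (u ∘ g) := Tuple.monotone_sort u
      have hst := hstar (fun i => z (g i)) σ (u ∘ g)
        (fun i => ⟨by
          have := (hzK (g i)).1
          have h2 : 1 - x₀ / 2 ≤ ‖z (g i)‖ := (le_max_right _ _).trans this
          linarith, hKlt _ (hzK (g i))⟩)
        hσ (fun i => ⟨hcase _, rfl⟩)
      have hc := hC₃ (2 * th / π) (Real.log n) V Cch CS (u ∘ g) (τ ∘ g)
        (fun i k => s (g i) (g k)) (by rw [hκ]; linarith) (fun i => hcase _) hmono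
        (fun i k => hsymm _ _) (fun i k => hslow _ _) (fun i => rfl)
        (fun i => hτt _)
        (fun i => by
          have h1 := hmain' (g i)
          have h2 : ∑ k ∈ Finset.univ.erase i, s (g i) (g k) =
              ∑ k ∈ Finset.univ.erase (g i), s (g i) k := by
            rw [Finset.sum_erase_eq_sub (Finset.mem_univ _),
              Finset.sum_erase_eq_sub (Finset.mem_univ _)]
            rw [Equiv.sum_comp g (fun k => s (g i) k)]
          rw [h2]
          exact h1)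
        (by rw [show (2:ℝ) * 1 = 2 by norm_num] at hst; exact hst)
      have hQ : ∑ i, ∑ j, σ i * σ j * min ((u ∘ g) i) ((u ∘ g) j) ≤
          4 * ((m:ℝ) + 1) ^ 2 * ((C₂ + C₁) * (1 + Real.log n)) := by
        have h1 : ∀ i j, σ i * σ j * min ((u ∘ g) i) ((u ∘ g) j) ≤
            4 * ((C₂ + C₁) * (1 + Real.log n)) := by
          intro i j
          have h2 : σ i * σ j ≤ 4 := by nlinarith [hσ i, hσ j]
          have h3 : min ((u ∘ g) i) ((u ∘ g) j) ≤ (C₂ + C₁) * (1 + Real.log n) := by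
            refine (min_le_left _ _).trans ((hub (g i)).trans ?_)
            nlinarith
          have h4 : 0 ≤ min ((u ∘ g) i) ((u ∘ g) j) := le_min (hcase _) (hcase _)
          exact mul_le_mul h2 h3 h4 (by norm_num)
        refine (Finset.sum_le_sum fun i _ => Finset.sum_le_sum fun j _ => h1 i j).trans ?_
        simp only [Finset.sum_const, Finset.card_univ, Fintype.card_fin, nsmul_eq_mul]
        push_cast
        nlinarith [sq_nonneg ((m:ℝ) + 1)]
      rw [hκ] at hc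
      have h5 : (1 - (1 - η)) * (∑ i, ∑ j, σ i * σ j * min ((u ∘ g) i) ((u ∘ g) j)) / 2
          ≤ ε / 2 * (1 + Real.log n) := by
        have h6 : (1 - (1 - η)) * (∑ i, ∑ j, σ i * σ j * min ((u ∘ g) i) ((u ∘ g) j)) / 2
            ≤ η * (4 * ((m:ℝ) + 1) ^ 2 * ((C₂ + C₁) * (1 + Real.log n))) / 2 := by
          apply div_le_div_of_nonneg_right _ (by positivity)
          rw [sub_sub_cancel]
          exact mul_le_mul_of_nonneg_left hQ hη0.le
        refine h6.trans ?_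
        have h7 : η * (4 * ((m:ℝ) + 1) ^ 2 * ((C₂ + C₁) * (1 + Real.log n))) / 2 =
            (η * A) * (1 + Real.log n) := by
          rw [hA]; ring
        rw [h7]
        exact mul_le_mul_of_nonneg_right hηA (by linarith)
      rw [hPlog]
      have h8 := le_abs_self (CS / 2)
      have h9 := le_abs_self C₃
      simp only [hV] at hc
      nlinarith
  have hPb : P ≤ Cfin * (1 + (n:ℝ) ^ (Vs + ε)) := by
    have hnp : 0 < (n:ℝ) ^ (Vs + ε) := Real.rpow_pos_of_pos hnpos _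
    have e1 := Real.exp_pos (Cch + 2 * m * Real.log 2)
    have e2 := Real.exp_pos (ε / 2 + Cch + |CS / 2| + |C₃| + m * Real.log 2)
    have e3 : 0 ≤ M₂ * 2 ^ m := by positivity
    rcases hVb with h | h
    · have h1 : P ≤ Real.exp (Cch + 2 * m * Real.log 2) := by
        rw [← Real.exp_log hPpos]; exact Real.exp_le_exp.2 h
      rw [hCfin]
      nlinarith
    · have h1 : P ≤ Real.exp (ε / 2 + Cch + |CS / 2| + |C₃| + m * Real.log 2) *
          (n:ℝ) ^ (Vs + ε) := by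
        rw [← Real.exp_log hPpos, Real.rpow_def_of_pos hnpos, ← Real.exp_add]
        apply Real.exp_le_exp.2
        nlinarith
      rw [hCfin]
      nlinarith
  refine ⟨fun l => z l / (‖z l‖ : ℂ), fun l => hζn _, ?_⟩
  intro w hw1 hw2
  have hprod : ∏ l : Fin m, ‖w - z l / (‖z l‖ : ℂ)‖ =
      ∏ l ∈ Finset.range m, ‖w - z l / (‖z l‖ : ℂ)‖ := by
    rw [Finset.prod_range]
  rw [hprod]
  by_cases hwr : r₂ ≤ ‖w‖
  · have h1 := hgreedy m w ⟨hwr, hw2⟩
    refine le_trans ?_ hPb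
    calc _ = F w * ∏ l ∈ Finset.range m, ‖w - z l / (‖z l‖ : ℂ)‖ := by
          simp only [hF]; ring
      _ ≤ P := h1
  · push Not at hwr
    have hnp : 0 < (n:ℝ) ^ (Vs + ε) := Real.rpow_pos_of_pos hnpos _
    have h1 : ‖f w‖ ≤ M₂ := hM₂ w hwr.le
    have h2 : ∏ l ∈ Finset.range m, ‖w - z l / (‖z l‖ : ℂ)‖ ≤ 2 ^ m := by
      have h3 : ∏ l ∈ Finset.range m, ‖w - z l / (‖z l‖ : ℂ)‖ ≤ ∏ l ∈ Finset.range m, (2:ℝ) := by
        apply Finset.prod_le_prod (fun _ _ => norm_nonneg _)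
        intro l _
        refine (norm_sub_le _ _).trans ?_
        rw [hζn]; linarith
      simpa using h3
    have hwlt : ‖w‖ < 1 := by
      have : 0 < 1 / (n:ℝ) := by positivity
      linarith
    have h3 : (1 - ‖w‖) ^ e ≤ 1 :=
      Real.rpow_le_one (by linarith) (by linarith [norm_nonneg w]) he0
    have h4 : 0 ≤ ∏ l ∈ Finset.range m, ‖w - z l / (‖z l‖ : ℂ)‖ :=
      Finset.prod_nonneg fun _ _ => norm_nonneg _
    have h5 : ‖f w‖ * ∏ l ∈ Finset.range m, ‖w - z l / (‖z l‖ : ℂ)‖ ≤ M₂ * 2 ^ m :=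
      mul_le_mul h1 h2 h4 hM₂0
    have h6 : (‖f w‖ * ∏ l ∈ Finset.range m, ‖w - z l / (‖z l‖ : ℂ)‖) * (1 - ‖w‖) ^ e
        ≤ (M₂ * 2 ^ m) * 1 :=
      mul_le_mul h5 h3 (Real.rpow_nonneg (by linarith) _) (by positivity)
    refine h6.trans ?_
    have e1 := Real.exp_pos (Cch + 2 * m * Real.log 2)
    have e2 := Real.exp_pos (ε / 2 + Cch + |CS / 2| + |C₃| + m * Real.log 2)
    have e3 : 0 ≤ M₂ * 2 ^ m := by positivity
    rw [hCfin]
    nlinarith

end Pool.Agent.H3.D6
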