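import Mathlib
import Pool.Agent.H3.D6.Annul
import Pool.Agent.H3.D6.Coef
import Pool.Agent.H3.D6.Sup
import Pool.Graph.R_seed8.Helper772.MV.Univ

/-!
# Short linear relations for the coefficients of univalent functions: the estimate
-/

set_option autoImplicit false

open MeasureTheory Metric Set Filter Topology
open scoped ENNReal Real

namespace Pool.Agent.H3.D6

open MeanVal hiding CertOK weighted_sup_bound

theorem annulus_est (a : ℂ → ℂ) (ha : DifferentiableOn ℂ a (ball 0 1)) (hinj : InjOn a (ball 0 1))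
    (ha0 : ∀ z ∈ ball (0:ℂ) 1, a z ≠ 0) (C₁ C₃ : ℝ) (hC₁ : 0 ≤ C₁) (hC₃ : 0 ≤ C₃)
    (hL : ∀ z : ℂ, ‖z‖ < 1 → ‖deriv a z‖ * (1 - ‖z‖) ≤ C₁ * ‖a z‖)
    (hEn : ∀ n : ℕ, 2 ≤ n → ∫⁻ z in {z : ℂ | rr < ‖z‖ ∧ ‖z‖ < 1 - 1 / (n:ℝ)},
        ENNReal.ofReal ((‖deriv a z‖ / ‖a z‖) ^ 2) ≤ ENNReal.ofReal (C₃ * (1 + Real.log n)))
    (m : ℕ) :
    ∃ C : ℝ, 0 ≤ C ∧ ∀ n : ℕ, 4 ≤ n → rr ≤ 1 - 2 / (n:ℝ) → ∀ ζ : Fin m → ℂ,
      (∀ l, ‖ζ l‖ = 1) → ∀ B : ℝ, 0 ≤ B →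
      (∀ z : ℂ, rr ≤ ‖z‖ → ‖z‖ ≤ 1 - 1 / (n:ℝ) →
        (‖a z‖ * ∏ l, ‖z - ζ l‖) * (1 - ‖z‖) ^ ww ≤ B) →
      ∫⁻ z in {z : ℂ | 1 - 2 / (n:ℝ) < ‖z‖ ∧ ‖z‖ < 1 - 1 / (n:ℝ)},
        ENNReal.ofReal (‖deriv a z‖ * ∏ l, ‖z - ζ l‖) ≤
      ENNReal.ofReal (C * ((n:ℝ) ^ (ww - 1) * (1 + B) * (1 + Real.log n))) := by
  have hpi := Real.pi_pos
  have hpp0 : 0 < pp := by unfold pp; norm_num
  have hpp1 : pp ≤ 1 := by unfold pp; norm_num
  have hrr0 : 0 < rr := by unfold rr; norm_num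
  obtain ⟨C, hC, hmean⟩ := mean_bound a ha hinj ha0 C₁ C₃ hC₁ hC₃ hL hEn m
  have hder : ∀ z ∈ ball (0:ℂ) 1, deriv a z ≠ 0 := fun z hz =>
    Pool.Agent.Helper405.Conv.deriv_ne_zero_of_injOn isOpen_ball ha hinj hz
  refine ⟨2 * π * C + C₃, by positivity, ?_⟩
  intro n hn hrn ζ hζ B hB hBsup
  have hn4 : (4:ℝ) ≤ n := by exact_mod_cast hn
  have hn0 : (0:ℝ) < n := by linarith
  have hinv : 0 < 1 / (n:ℝ) := by positivity
  have h2n : 2 / (n:ℝ) = 1 / n + 1 / n := by ring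
  have hlogn : 0 ≤ Real.log n := Real.log_nonneg (by linarith)
  obtain ⟨G, T, hG, hT, hEuler, hGn, hTn⟩ := exists_G pp hpp0.le hpp1 a ha ha0 hder m ζ hζ
  have hUR := hmean n (by omega) (by linarith) ζ hζ B hB hBsup G T hG hT hEuler hGn hTn
  have hc : SumOK (csq G) := sumOK_coeff G hG
  set R : ℝ := 1 - 1 / (n:ℝ) with hR
  set R' : ℝ := 1 - 2 / (n:ℝ) with hR'
  have hR1 : R < 1 := by rw [hR]; linarith
  have hRR' : R' ≤ R := by rw [hR, hR']; linarith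
  have hR'0 : 0 < R' := hrr0.trans_le hrn
  have hRsub : R - R' = 1 / n := by rw [hR, hR', h2n]; ring
  set A : Set ℂ := {z : ℂ | R' < ‖z‖ ∧ ‖z‖ < R} with hA
  have hAm : MeasurableSet A := annulus_measurable _ _
  have hAball : A ⊆ ball (0:ℂ) 1 := by
    intro z hz
    rw [mem_ball_zero_iff]; exact hz.2.trans hR1
  -- the integral of |G|^2
  have hGc : ContinuousOn (fun z => ‖G z‖ ^ 2) {z : ℂ | R' ≤ ‖z‖ ∧ ‖z‖ ≤ R} := by
    refine (hG.continuousOn.norm.pow 2).mono ?_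
    intro z hz
    rw [mem_ball_zero_iff]
    exact lt_of_le_of_lt hz.2 hR1
  have hU0 := U_nonneg hc 0 (s := R)
  have hGint : ∫⁻ z in A, ENNReal.ofReal (‖G z‖ ^ 2) ≤
      ENNReal.ofReal (2 * π * U (csq G) 0 R * (1 / n)) := by
    rw [hA, polar_annulus (fun z => ‖G z‖ ^ 2) R' R hR'0 hRR' hGc (fun z _ _ => by positivity)]
    apply ENNReal.ofReal_le_ofReal
    have h1 : ∫ s in R'..R, s * ∫ θ in (-π)..π, ‖G (cp s θ)‖ ^ 2 ≤
        ∫ s in R'..R, 2 * π * U (csq G) 0 R := by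
      apply intervalIntegral.integral_mono_on hRR'
      · apply ContinuousOn.intervalIntegrable
        rw [uIcc_of_le hRR']
        exact continuousOn_id.mul (continuousOn_circ (fun z => ‖G z‖ ^ 2) R' R hR'0.le hRR' hGc)
      · exact continuous_const.intervalIntegrable _ _
      · intro s hs
        have hs0 : 0 < s := hR'0.trans_le hs.1
        have hs1 : s < 1 := lt_of_le_of_lt hs.2 hR1
        rw [U_zero_eq G hG s hs0.le hs1]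
        have h2 : U (csq G) 0 s ≤ U (csq G) 0 R := U_zero_mono hc hs0.le hs.2 hR1
        have h3 : 0 ≤ U (csq G) 0 s := U_nonneg hc 0
        change s * (2 * π * U (csq G) 0 s) ≤ 2 * π * U (csq G) 0 R
        calc s * (2 * π * U (csq G) 0 s) ≤ 1 * (2 * π * U (csq G) 0 s) :=
              mul_le_mul_of_nonneg_right hs1.le (by positivity)
          _ ≤ 2 * π * U (csq G) 0 R := by
              rw [one_mul]
              exact mul_le_mul_of_nonneg_left h2 (by positivity)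
    refine h1.trans (le_of_eq ?_)
    rw [intervalIntegral.integral_const, hRsub, smul_eq_mul]
    ring
  -- the parameter
  set B1 : ℝ := 1 + B with hB1
  have hB10 : 0 < B1 := by rw [hB1]; linarith
  set s : ℝ := (n:ℝ) ^ (ww - 1) * B1 with hs
  have hnw : 0 < (n:ℝ) ^ (ww - 1) := Real.rpow_pos_of_pos hn0 _
  have hs0 : 0 < s := by positivity
  have hs2 : s ^ (pp - 1) = (n:ℝ) ^ ((ww - 1) * (pp - 1)) * B1 ^ (pp - 1) := by
    rw [hs, Real.mul_rpow hnw.le hB10.le, Real.rpow_mul hn0.le]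
  have hsp : 0 < s ^ (pp - 1) := Real.rpow_pos_of_pos hs0 _
  -- pointwise
  have hpt : ∫⁻ z in A, ENNReal.ofReal (‖deriv a z‖ * ∏ l, ‖z - ζ l‖) ≤
      ∫⁻ z in A, (ENNReal.ofReal (s ^ (pp - 1)) * ENNReal.ofReal (‖G z‖ ^ 2) +
        ENNReal.ofReal s * ENNReal.ofReal ((‖deriv a z‖ / ‖a z‖) ^ 2)) := by
    refine setLIntegral_mono' hAm ?_
    intro z hz
    have hz1 : z ∈ ball (0:ℂ) 1 := hAball hz
    have hz2 : ‖z‖ < 1 := mem_ball_zero_iff.1 hz1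
    rw [← ENNReal.ofReal_mul hsp.le, ← ENNReal.ofReal_mul hs0.le,
      ← ENNReal.ofReal_add (by positivity) (by positivity)]
    apply ENNReal.ofReal_le_ofReal
    have h1 := G_young pp s ‖a z‖ ‖deriv a z‖ (∏ l, ‖z - ζ l‖) hpp1 hs0
      (norm_pos_iff.2 (ha0 z hz1)) (norm_pos_iff.2 (hder z hz1)) (prod_circle_pos ζ hζ z hz2)
    rw [← hGn z hz2] at h1
    linarith [mul_comm (∏ l, ‖z - ζ l‖) ‖deriv a z‖]
  refine hpt.trans ?_
  have hGm : AEMeasurable (fun z => ENNReal.ofReal (s ^ (pp - 1)) * ENNReal.ofReal (‖G z‖ ^ 2))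
      (volume.restrict A) := by
    have h1 : ContinuousOn (fun z => ‖G z‖ ^ 2) A := (hG.continuousOn.norm.pow 2).mono hAball
    exact (h1.aemeasurable hAm).ennreal_ofReal.const_mul _
  rw [lintegral_add_left' hGm, lintegral_const_mul' _ _ ENNReal.ofReal_ne_top,
    lintegral_const_mul' _ _ ENNReal.ofReal_ne_top]
  have hsub : A ⊆ {z : ℂ | rr < ‖z‖ ∧ ‖z‖ < 1 - 1 / (n:ℝ)} := by
    intro z hz
    exact ⟨lt_of_le_of_lt hrn hz.1, hz.2⟩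
  have hE := (lintegral_mono_set (f := fun z => ENNReal.ofReal ((‖deriv a z‖ / ‖a z‖) ^ 2))
    hsub (μ := volume)).trans (hEn n (by omega))
  calc ENNReal.ofReal (s ^ (pp - 1)) * (∫⁻ z in A, ENNReal.ofReal (‖G z‖ ^ 2)) +
        ENNReal.ofReal s * (∫⁻ z in A, ENNReal.ofReal ((‖deriv a z‖ / ‖a z‖) ^ 2))
      ≤ ENNReal.ofReal (s ^ (pp - 1)) * ENNReal.ofReal (2 * π * U (csq G) 0 R * (1 / n)) +
        ENNReal.ofReal s * ENNReal.ofReal (C₃ * (1 + Real.log n)) := by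
        gcongr
    _ = ENNReal.ofReal (s ^ (pp - 1) * (2 * π * U (csq G) 0 R * (1 / n)) +
        s * (C₃ * (1 + Real.log n))) := by
        rw [← ENNReal.ofReal_mul hsp.le, ← ENNReal.ofReal_mul hs0.le,
          ← ENNReal.ofReal_add (by positivity) (by positivity)]
    _ ≤ _ := by
        apply ENNReal.ofReal_le_ofReal
        have h1 : s ^ (pp - 1) * (2 * π * U (csq G) 0 R * (1 / n)) ≤
            s ^ (pp - 1) * (2 * π * (C * ((n:ℝ) ^ bb * B1 ^ (2 - pp) * (1 + Real.log n))) * (1 / n)) := by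
          apply mul_le_mul_of_nonneg_left _ hsp.le
          apply mul_le_mul_of_nonneg_right _ hinv.le
          exact mul_le_mul_of_nonneg_left hUR (by positivity)
        have h2 : s ^ (pp - 1) * (2 * π * (C * ((n:ℝ) ^ bb * B1 ^ (2 - pp) * (1 + Real.log n))) *
            (1 / n)) = 2 * π * C * (((n:ℝ) ^ ((ww - 1) * (pp - 1)) * (n:ℝ) ^ bb * (n:ℝ) ^ (-1:ℝ)) *
              (B1 ^ (pp - 1) * B1 ^ (2 - pp)) * (1 + Real.log n)) := by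
          rw [hs2, Real.rpow_neg_one, one_div]
          ring
        have h3 : (n:ℝ) ^ ((ww - 1) * (pp - 1)) * (n:ℝ) ^ bb * (n:ℝ) ^ (-1:ℝ) = (n:ℝ) ^ (ww - 1) := by
          rw [← Real.rpow_add hn0, ← Real.rpow_add hn0]
          congr 1
          have := bb_eq
          linarith
        have h4 : B1 ^ (pp - 1) * B1 ^ (2 - pp) = B1 := by
          rw [← Real.rpow_add hB10, show pp - 1 + (2 - pp) = 1 by ring, Real.rpow_one]
        rw [h3, h4] at h2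
        rw [h2] at h1
        rw [hs]
        linarith

set_option maxHeartbeats 1000000 in
theorem main_bound (a : ℂ → ℂ) (ha : DifferentiableOn ℂ a (ball 0 1)) (hinj : InjOn a (ball 0 1))
    (ha0 : ∀ z ∈ ball (0:ℂ) 1, a z ≠ 0) (m : ℕ) (σ : Fin (m + 1) → ℝ) (Vs : ℝ)
    (hσ : ∀ i, 0 ≤ σ i ∧ σ i ≤ 2) (hVs : 0 ≤ Vs) (hcert : CertOK (m + 1) ww Vs σ) (α : ℝ)
    (hα : -1 + ww + Vs < α) (k : ℕ) :
    ∃ (K : ℝ) (N₀ : ℕ), ∀ n : ℕ, N₀ ≤ n → ∃ c : ℕ → ℂ, c 0 = 1 ∧ 1 ≤ ‖c m‖ ∧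
      ∀ j ≤ k, ‖∑ i ∈ Finset.range (m + 1), c i * coeff a (n + j + i)‖ ≤ K * (n : ℝ) ^ α := by
  have hww0 : 0 < ww := by unfold ww; norm_num
  have hrr0 : 0 < rr := by unfold rr; norm_num
  have hrr1 : rr < 1 := by unfold rr; norm_num
  have hab : AreaBound 1 a := areaBound_of_injOn ha hinj
  obtain ⟨CL, hCL, hlogd⟩ := LogDeriv.logDeriv_bound (p := 1) one_pos
  have hE : ∀ a₁ b : ℝ, 0 < a₁ → a₁ ≤ b →
      ∫⁻ z in {z : ℂ | z ∈ ball (0:ℂ) 1 ∧ a₁ < ‖a z‖ ∧ ‖a z‖ < b},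
        ENNReal.ofReal ((‖deriv a z‖ / ‖a z‖) ^ 2)
        ≤ ENNReal.ofReal (π * 1 * (1 + 2 * Real.log (b / a₁))) :=
    fun a₁ b h1 hb => Energy.energy_le one_pos hab h1 hb
  have hL : ∀ z : ℂ, ‖z‖ < 1 → ‖deriv a z‖ * (1 - ‖z‖) ≤ CL * ‖a z‖ := by
    intro z hz2
    refine hlogd a z (1 - ‖z‖) (by linarith) ?_ ha ?_ hE
    · intro w hw
      rw [mem_ball, dist_eq_norm] at hw
      rw [mem_ball_zero_iff]
      have := norm_le_insert' w z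
      linarith
    · intro w hw
      rw [mem_ball, dist_eq_norm] at hw
      have h2 := norm_le_insert' w z
      apply ha0 w
      rw [mem_ball_zero_iff]
      linarith
  have hL' : ∀ z : ℂ, rr ≤ ‖z‖ → ‖z‖ < 1 → a z ≠ 0 ∧ ‖deriv a z‖ * (1 - ‖z‖) ≤ CL * ‖a z‖ :=
    fun z _ hz => ⟨ha0 z (mem_ball_zero_iff.2 hz), hL z hz⟩
  obtain ⟨C₂, hC₂, hlog⟩ := Logs.logf_bound rr CL hrr0 hrr1 hCL.le a ha hL'
  obtain ⟨C₃, hC₃, hEn⟩ := Logs.annulus_energy 1 rr CL C₂ one_pos hrr0 hrr1 hCL.le hC₂ a ha hE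
    (fun z h1 h2 => ⟨(hL' z h1 h2).1, hlog z h1 h2⟩)
  obtain ⟨C₄, hC₄, hest⟩ := annulus_est a ha hinj ha0 CL C₃ hCL.le hC₃ hL hEn m
  obtain ⟨C₇, hC₇, hcombo⟩ := coeff_combo m k
  set ε : ℝ := (α + 1 - ww - Vs) / 2 with hεdef
  have hε : 0 < ε := by rw [hεdef]; linarith
  obtain ⟨C₆, n₀, hC₆, hn₀, hsup⟩ := weighted_sup_bound m ww hww0.le σ Vs hσ hcert a hab rr CL
    hrr0 hrr1 hCL.le hL' ε hε
  refine ⟨C₇ * (C₄ + 1) * (1 + 2 * C₆) * (1 + 1 / ε), max n₀ 20000, ?_⟩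
  intro n hn
  have hn1 : n₀ ≤ n := (le_max_left _ _).trans hn
  have hn2 : 20000 ≤ n := (le_max_right _ _).trans hn
  have hnR : (20000:ℝ) ≤ n := by exact_mod_cast hn2
  have hnR0 : (0:ℝ) < n := by linarith
  have hinv : 0 < 1 / (n:ℝ) := by positivity
  have hrn : rr ≤ 1 - 2 / (n:ℝ) := by
    have h1 : 2 / (n:ℝ) ≤ 2 / 20000 := by
      apply div_le_div_of_nonneg_left (by norm_num) (by norm_num) hnR
    unfold rr
    norm_num at h1 ⊢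
    linarith
  have h2n : 2 / (n:ℝ) = 1 / n + 1 / n := by ring
  obtain ⟨ζ, hζ, hζs⟩ := hsup n hn1
  set B : ℝ := C₆ * (1 + (n:ℝ) ^ (Vs + ε)) with hB
  have hnp : 0 < (n:ℝ) ^ (Vs + ε) := Real.rpow_pos_of_pos hnR0 _
  have hB0 : 0 ≤ B := by positivity
  have hlogn : 0 ≤ Real.log n := Real.log_nonneg (by linarith)
  have hnw : 0 < (n:ℝ) ^ (ww - 1) := Real.rpow_pos_of_pos hnR0 _
  have hX := hest n (by omega) hrn ζ hζ B hB0 hζs
  set X : ℝ := C₄ * ((n:ℝ) ^ (ww - 1) * (1 + B) * (1 + Real.log n)) with hXdef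
  have hX0 : 0 ≤ X := by positivity
  set Y : ℝ := B * (n:ℝ) ^ ww with hYdef
  have hY0 : 0 ≤ Y := by positivity
  have hYb : ∀ z : ℂ, ‖z‖ = 1 - 1 / (n:ℝ) → ‖a z‖ * ∏ l, ‖z - ζ l‖ ≤ Y := by
    intro z hz
    have h1 := hζs z (by rw [hz]; linarith) hz.le
    have h2 : 1 - ‖z‖ = 1 / (n:ℝ) := by rw [hz]; ring
    rw [h2, one_div, Real.inv_rpow hnR0.le, ← div_eq_mul_inv,
      div_le_iff₀ (Real.rpow_pos_of_pos hnR0 _)] at h1
    exact h1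
  obtain ⟨c, hc0, hcm, hc⟩ := hcombo a ha n (by omega) ζ hζ X Y hX0 hY0 hX hYb
  refine ⟨c, hc0, hcm, fun j hj => (hc j hj).trans ?_⟩
  have hYn : Y / n = B * (n:ℝ) ^ (ww - 1) := by
    rw [hYdef, Real.rpow_sub_one hnR0.ne']
    ring
  have h1 : X + Y / n ≤ (C₄ + 1) * ((n:ℝ) ^ (ww - 1) * (1 + B) * (1 + Real.log n)) := by
    rw [hXdef, hYn]
    have h2 : B * (n:ℝ) ^ (ww - 1) ≤ (n:ℝ) ^ (ww - 1) * (1 + B) * (1 + Real.log n) := by
      have h3 : 0 ≤ (n:ℝ) ^ (ww - 1) * (1 + B) := by positivity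
      nlinarith [mul_nonneg h3 hlogn]
    linarith
  have hge1 : (1:ℝ) ≤ (n:ℝ) ^ (Vs + ε) := Real.one_le_rpow (by linarith) (by linarith)
  have h4 : 1 + B ≤ (1 + 2 * C₆) * (n:ℝ) ^ (Vs + ε) := by
    rw [hB]; nlinarith
  have h5 : 1 + Real.log n ≤ (1 + 1 / ε) * (n:ℝ) ^ ε := by
    have h6 := Real.log_le_rpow_div hnR0.le hε
    have h7 : (1:ℝ) ≤ (n:ℝ) ^ ε := Real.one_le_rpow (by linarith) hε.le
    have h8 : (n:ℝ) ^ ε / ε = 1 / ε * (n:ℝ) ^ ε := by ring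
    rw [h8] at h6
    nlinarith
  have h9 : (n:ℝ) ^ (ww - 1) * (n:ℝ) ^ (Vs + ε) * (n:ℝ) ^ ε = (n:ℝ) ^ α := by
    rw [← Real.rpow_add hnR0, ← Real.rpow_add hnR0]
    congr 1
    rw [hεdef]; ring
  calc C₇ * (X + Y / n)
      ≤ C₇ * ((C₄ + 1) * ((n:ℝ) ^ (ww - 1) * (1 + B) * (1 + Real.log n))) :=
        mul_le_mul_of_nonneg_left h1 hC₇
    _ ≤ C₇ * ((C₄ + 1) * ((n:ℝ) ^ (ww - 1) * ((1 + 2 * C₆) * (n:ℝ) ^ (Vs + ε)) *
        ((1 + 1 / ε) * (n:ℝ) ^ ε))) := by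
        apply mul_le_mul_of_nonneg_left _ hC₇
        apply mul_le_mul_of_nonneg_left _ (by positivity)
        apply mul_le_mul _ h5 (by positivity) (by positivity)
        exact mul_le_mul_of_nonneg_left h4 hnw.le
    _ = C₇ * (C₄ + 1) * (1 + 2 * C₆) * (1 + 1 / ε) *
        ((n:ℝ) ^ (ww - 1) * (n:ℝ) ^ (Vs + ε) * (n:ℝ) ^ ε) := by ring
    _ = C₇ * (C₄ + 1) * (1 + 2 * C₆) * (1 + 1 / ε) * (n:ℝ) ^ α := by rw [h9]

end Pool.Agent.H3.D6
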